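import Mathlib
import Pool.Agent.U499.ETV.Bas
import Pool.Agent.Y920.ETC.Chain

set_option autoImplicit false
set_option linter.unusedSimpArgs false

/-! Partitions of quaternionic structures modulo `{1, -1}`, arbitrary `-1`. -/

namespace Pool.Agent.U499.EPT.Gen

open Pool.Agent.H315R3.ETC Pool.Agent.Y920.ETC Pool.Agent.U499.ETV

/-- `X` is a partition of `G / {1, -1}` into proper subgroups (given by subgroups of `G` which
contain `-1`, cover `G` and meet pairwise in `{1, -1}`), and elements `a, b ≠ 1, -1` with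
`q(a,b) = 0` are in the same part -/
structure GPart (S : QData) (X : Set (Subgroup S.G)) : Prop where
  neg : ∀ K ∈ X, S.neg ∈ K
  ne_top : ∀ K ∈ X, K ≠ ⊤
  cover : ∀ x : S.G, ∃ K ∈ X, x ∈ K
  inf : ∀ K ∈ X, ∀ K' ∈ X, K ≠ K' → ∀ x ∈ K, x ∈ K' → x = 1 ∨ x = S.neg
  orth : ∀ K ∈ X, ∀ a ∈ K, a ≠ 1 → a ≠ S.neg → ∀ b : S.G, S.q a b = S.zero → b ∈ K

section

variable {S : QData} (h : IsQuat S) {X : Set (Subgroup S.G)} (hX : GPart S X)

include h hX in
/-- a quaternion with slots in different parts has no representation inside one part -/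
lemma no_inner {A B C : Subgroup S.G} (hA : A ∈ X) (hB : B ∈ X) (hC : C ∈ X) (hAB : A ≠ B)
    {a b u x : S.G} (haA : a ∈ A) (ha1 : a ≠ 1) (han : a ≠ S.neg) (hbB : b ∈ B) (hb1 : b ≠ 1)
    (hbn : b ≠ S.neg) (hu : u ∈ C) (hx : x ∈ C) (e : S.q a b = S.q u x) : False := by
  have hbA : b ∉ A := fun hc => (hX.inf A hA B hB hAB b hc hbB).elim hb1 hbn
  have hne : S.q a b ≠ S.zero := fun e0 => hbA (hX.orth A hA a haA ha1 han b e0)
  have hg : ∀ g : S.G, S.q a (b * g) = S.zero → g ∉ A := by
    intro g h1 hgA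
    exact hbA ((Subgroup.mul_mem_cancel_right A hgA).1 (hX.orth A hA a haA ha1 han _ h1))
  have key : ∀ u x : S.G, u ∈ C → x ∈ C → u ≠ 1 → u ≠ S.neg → S.q a b = S.q u x → False := by
    intro u x hu hx hu1 hun e
    obtain ⟨g, h1, h2, h3⟩ := link h e
    have hgA := hg g h1
    have hgC : g ∈ C := (Subgroup.mul_mem_cancel_left C hx).1 (hX.orth C hC u hu hu1 hun _ h2)
    have hCA : C ≠ A := by
      rintro rfl
      exact hgA hgC
    have huA : u ∉ A := fun hc => (hX.inf C hC A hA hCA u hu hc).elim hu1 hun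
    have hau1 : a * u ≠ 1 := fun hc => huA (by rw [← eq_of_mul h _ _ hc]; exact haA)
    have haun : a * u ≠ S.neg := fun hc => huA
      ((Subgroup.mul_mem_cancel_left A haA).1 (by rw [hc]; exact hX.neg A hA))
    obtain ⟨D, hD, hauD⟩ := hX.cover (a * u)
    have hgD : g ∈ D := hX.orth D hD _ hauD hau1 haun g (sy h h3)
    by_cases hDC : D = C
    · rw [hDC] at hauD
      have h6 : a ∈ C := (Subgroup.mul_mem_cancel_right C hu).1 hauD
      exact (hX.inf A hA C hC hCA.symm a haA h6).elim ha1 han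
    · rcases hX.inf D hD C hC hDC g hgD hgC with h7 | h7
      · exact hgA (by rw [h7]; exact A.one_mem)
      · exact hgA (by rw [h7]; exact hX.neg A hA)
  by_cases hu0 : u ≠ 1 ∧ u ≠ S.neg
  · exact key u x hu hx hu0.1 hu0.2 e
  by_cases hx0 : x ≠ 1 ∧ x ≠ S.neg
  · exact key x u hx hu hx0.1 hx0.2 (by rw [h.qs2 x u]; exact e)
  have hu2 : u ≠ 1 := by
    rintro rfl
    apply hne
    rw [e, h.qs2]
    exact q_one h x
  have hx2 : x ≠ 1 := by
    rintro rfl
    apply hne
    rw [e]
    exact q_one h u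
  have hun : u = S.neg := by
    by_contra hc
    exact hu0 ⟨hu2, hc⟩
  obtain ⟨g, h1, -, h3⟩ := link h e
  apply hg g h1
  rw [hun] at h3
  have h4 : a * S.neg ∈ A := A.mul_mem haA (hX.neg A hA)
  refine hX.orth A hA _ h4 ?_ ?_ g (sy h h3)
  · intro hc
    exact han (eq_of_mul h _ _ hc)
  · intro hc
    exact ha1 (tr h.exp2 hc (by simp only [mul_comm, mul_left_comm, mul_assoc, ec h.exp2, h.exp2, mul_one, one_mul]))

/-- `-1 = 1`, or `V(-1)` is contained in one part -/
def NegIn (S : QData) (X : Set (Subgroup S.G)) : Prop :=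
  S.neg = 1 ∨ ∃ A ∈ X, ∀ w : S.G, S.q S.neg w = S.zero → w ∈ A

include h hX in
/-- the slots of such a quaternion have pairwise trivially meeting value groups -/
lemma indep_of_part (hW : NegIn S X) {A B : Subgroup S.G} (hA : A ∈ X) (hB : B ∈ X) (hAB : A ≠ B)
    {a b : S.G} (haA : a ∈ A) (ha1 : a ≠ 1) (han : a ≠ S.neg) (hbB : b ∈ B) (hb1 : b ≠ 1)
    (hbn : b ≠ S.neg) :
    (∀ c : S.G, S.q c c ≠ S.q a b) ∧ Indep S (S.q a b) := by
  have NI : ∀ C ∈ X, ∀ u ∈ C, ∀ x ∈ C, S.q u x ≠ S.q a b := fun C hC u hu x hx e =>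
    no_inner h hX hA hB hC hAB haA ha1 han hbB hb1 hbn hu hx e.symm
  have out : ∀ u : S.G, (∃ x, S.q u x = S.q a b) → u ≠ 1 ∧ u ≠ S.neg := by
    rintro u ⟨x, hx⟩
    obtain ⟨C, hC, hxC⟩ := hX.cover x
    constructor
    · rintro rfl
      exact NI C hC 1 C.one_mem x hxC hx
    · rintro rfl
      exact NI C hC S.neg (hX.neg C hC) x hxC hx
  refine ⟨?_, ?_⟩
  · intro c hc
    obtain ⟨C, hC, hcC⟩ := hX.cover c
    exact NI C hC c hcC c hcC hc
  · intro u v huv hu hv d h1 h2
    obtain ⟨hu1, hun⟩ := out u hu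
    obtain ⟨hv1, hvn⟩ := out v hv
    obtain ⟨U, hU, huU⟩ := hX.cover u
    obtain ⟨W, hWX, hvW⟩ := hX.cover v
    have hdU := hX.orth U hU u huU hu1 hun d h1
    have hdW := hX.orth W hWX v hvW hv1 hvn d h2
    by_cases hUW : U = W
    · subst hUW
      obtain ⟨x, hx⟩ := hu
      obtain ⟨y, hy⟩ := hv
      obtain ⟨g, h3, h4, h5⟩ := link h (hx.trans hy.symm)
      have e1 : S.q u g = S.q a b := ((h.qs3 _ _ _).2 h3).symm.trans hx
      have hgU : g ∉ U := fun hg => NI U hU u huU g hg e1
      have huv1 : u * v ≠ 1 := fun e => huv (eq_of_mul h _ _ e)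
      by_cases huvn : u * v = S.neg
      · rcases hW with hn | ⟨A0, hA0, hw⟩
        · exact absurd (huvn.trans hn) huv1
        · have hgA0 : g ∈ A0 := hw g (by rw [← huvn]; exact sy h h5)
          have hUA0 : U ≠ A0 := by
            rintro rfl
            exact hgU hgA0
          have e2 : S.q d S.neg = S.zero := by
            rw [← huvn]
            exact p_mul h (sy h h1) (sy h h2)
          have hdA0 : d ∈ A0 := hw d (sy h e2)
          rcases hX.inf U hU A0 hA0 hUA0 d hdU hdA0 with h6 | h6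
          · exact h6
          · exfalso
            rw [h6] at h1
            have huA0 : u ∈ A0 := hw u (sy h h1)
            exact (hX.inf U hU A0 hA0 hUA0 u huU huA0).elim hu1 hun
      · exact absurd (hX.orth U hU _ (U.mul_mem huU hvW) huv1 huvn g (sy h h5)) hgU
    · rcases hX.inf U hU W hWX hUW d hdU hdW with h6 | h6
      · exact h6
      · rcases hW with hn | ⟨A0, hA0, hw⟩
        · exact h6.trans hn
        · exfalso
          rw [h6] at h1 h2
          have huA0 : u ∈ A0 := hw u (sy h h1)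
          have hvA0 : v ∈ A0 := hw v (sy h h2)
          have e3 : U = A0 := by
            by_contra hc
            exact (hX.inf U hU A0 hA0 hc u huU huA0).elim hu1 hun
          have e4 : W = A0 := by
            by_contra hc
            exact (hX.inf W hWX A0 hA0 hc v hvW hvA0).elim hv1 hvn
          exact hUW (e3.trans e4.symm)

include h hX in
/-- if `V(-1)` is in one part then outside one of the parts all elements are birigid -/
theorem exists_part [Finite S.G] (hW : NegIn S X) : ∃ A ∈ X, ∀ g : S.G, g ∉ A → Bi S g := by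
  have fin : ∀ A ∈ X, (∀ g : S.G, g ∉ A → Hr S g) → ∀ g : S.G, g ∉ A → Bi S g := by
    intro A hA hr g hg
    have hnA : S.neg ∈ A := hX.neg A hA
    refine ⟨fun e => hg (by rw [e]; exact A.one_mem), fun e => hg (by rw [e]; exact hnA), hr g hg,
      hr _ fun hc => hg ((Subgroup.mul_mem_cancel_left A hnA).1 hc)⟩
  by_cases hbad : ∃ a : S.G, a ≠ 1 ∧ a ≠ S.neg ∧ ¬ Hr S a
  · obtain ⟨a, ha1, han, ha⟩ := hbad
    obtain ⟨A, hA, haA⟩ := hX.cover a
    refine ⟨A, hA, fin A hA fun g hgA => ?_⟩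
    have hg1 : g ≠ 1 := fun hc => hgA (by rw [hc]; exact A.one_mem)
    have hgn : g ≠ S.neg := fun hc => hgA (by rw [hc]; exact hX.neg A hA)
    obtain ⟨B, hB, hgB⟩ := hX.cover g
    have hAB : A ≠ B := by
      rintro rfl
      exact hgA hgB
    obtain ⟨h1, h2⟩ := indep_of_part h hX hW hA hB hAB haA ha1 han hgB hg1 hgn
    obtain ⟨w, hw⟩ := rigid_slots h h1 h2
    by_cases hgw : g = w
    · exfalso
      apply ha
      refine hw a ?_ ⟨g, rfl⟩
      rw [← hgw]
      rintro rfl
      exact hgA haA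
    · exact hw g hgw ⟨a, by rw [h.qs2]⟩
  · push Not at hbad
    obtain ⟨A, hA, -⟩ := hX.cover 1
    exact ⟨A, hA, fin A hA fun g hg => hbad g (fun hc => hg (by rw [hc]; exact A.one_mem))
      fun hc => hg (by rw [hc]; exact hX.neg A hA)⟩

include h hX in
/-- if `V(-1)` is in no part then all elements outside `V(-1)` and `-V(-1)` are birigid -/
theorem bi_outside (hW : ¬ NegIn S X) (g : S.G) (hg : S.q S.neg g ≠ S.zero)
    (hg' : S.q S.neg (S.neg * g) ≠ S.zero) : Bi S g := by
  unfold NegIn at hW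
  push Not at hW
  obtain ⟨hn, hW⟩ := hW
  have key : ∀ x : S.G, S.q S.neg x ≠ S.zero → S.q S.neg (S.neg * x) ≠ S.zero → Hr S x := by
    intro x hx hx'
    -- `V(x) \ {1, -x}` is in `V(-1)`
    have hx1 : x ≠ 1 := by
      rintro rfl
      exact hx (q_one h _)
    have hxn : x ≠ S.neg := by
      rintro rfl
      apply hx'
      rw [h.exp2]
      exact q_one h _
    obtain ⟨C, hC, hxC⟩ := hX.cover x
    obtain ⟨w, hw, hwC⟩ := hW C hC
    have key2 : ∀ v : S.G, S.q x v = S.zero → v ≠ 1 → v ≠ S.neg * x →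
        S.q S.neg (S.neg * v * x) = S.zero := by
      intro v hv hv1 hvx
      have hvn : v ≠ S.neg := by
        rintro rfl
        exact hx (sy h hv)
      have hvC : v ∈ C := hX.orth C hC x hxC hx1 hxn v hv
      have hzC : S.neg * v ∈ C := C.mul_mem (hX.neg C hC) hvC
      have hz1 : S.neg * v ≠ 1 := fun e => hvn (eq_of_mul h _ _ e).symm
      have hzn : S.neg * v ≠ S.neg := fun e => hv1 (mul_eq_left.1 e)
      have e1 : S.q (S.neg * v) x = S.q S.neg x := by
        rw [h.qs2, mul_comm S.neg v, q_shift h S.neg hv, h.qs2]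
      have e2 : S.q (x * w) (x * w) = S.q S.neg x := by
        have e3 : S.q (x * w) (x * w) = S.q (x * w) S.neg := by
          have := q_shift h (x * w) (h.qs1 (x * w))
          rw [mul_assoc, h.exp2, mul_one] at this
          exact this.symm
        rw [e3, h.qs2, mul_comm x w, q_shift h x hw]
      have hxwC : x * w ∉ C := fun hc => hwC ((Subgroup.mul_mem_cancel_left C hxC).1 hc)
      have hxw1 : x * w ≠ 1 := fun e => hxwC (by rw [e]; exact C.one_mem)
      have hxwn : x * w ≠ S.neg := fun e => hxwC (by rw [e]; exact hX.neg C hC)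
      obtain ⟨C', hC', hxwC'⟩ := hX.cover (x * w)
      have hCC' : C ≠ C' := by
        rintro rfl
        exact hxwC hxwC'
      obtain ⟨g, h1, h2, h3⟩ := link h (e1.trans e2.symm)
      have hgC : g ∈ C := (Subgroup.mul_mem_cancel_left C hxC).1
        (hX.orth C hC _ hzC hz1 hzn _ h1)
      have hgC' : g ∈ C' := (Subgroup.mul_mem_cancel_left C' hxwC').1
        (hX.orth C' hC' _ hxwC' hxw1 hxwn _ h2)
      rcases hX.inf C hC C' hC' hCC' g hgC hgC' with h4 | h4
      · exfalso
        rw [h4, mul_one, e1] at h1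
        exact hx h1
      · rw [h4] at h3
        exact pm h h3 hw (by simp only [mul_comm, mul_left_comm, mul_assoc, ec h.exp2, h.exp2, mul_one, one_mul])
    intro v hv
    by_contra hc
    rw [not_or] at hc
    have h1 := key2 v hv hc.1 hc.2
    have hv' : S.q x (S.neg * x * v) = S.zero := p_mul h (h.qs1 x) hv
    have h2 := key2 (S.neg * x * v) hv' (fun e => hc.2 (eq_of_mul h _ _ e).symm) (fun e => hc.1 (by
      exact mul_eq_left.1 e))
    apply hx'
    refine pm h h1 h2 ?_
    simp only [mul_comm, mul_left_comm, mul_assoc, ec h.exp2, h.exp2, mul_one, one_mul]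
  refine ⟨?_, ?_, key g hg hg', key _ hg' ?_⟩
  · rintro rfl
    exact hg (q_one h _)
  · rintro rfl
    apply hg'
    rw [h.exp2]
    exact q_one h _
  · rw [← mul_assoc, h.exp2, one_mul]
    exact hg

end

end Pool.Agent.U499.EPT.Gen
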