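import Mathlib
import Pool.Agent.U499.ETV.Bas
import Pool.Agent.Y920.ETC.Chain

set_option autoImplicit false
set_option linter.unusedSimpArgs false

/-! Partitions of quaternionic structures modulo a subgroup containing `-1`. -/

namespace Pool.Agent.U499.EPT

open Pool.Agent.H315R3.ETC Pool.Agent.Y920.ETC Pool.Agent.U499.ETV

/-- `X` is a partition of `G` modulo `P` into proper subgroups: they contain `P`, cover `G`, and
two different ones meet in `P`; elements orthogonal to `a ∉ P` are in the part of `a`, and not in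
`P` if they are different from `1` -/
structure IsPart (S : QData) (P : Subgroup S.G) (X : Set (Subgroup S.G)) : Prop where
  neg : S.neg ∈ P
  le : ∀ K ∈ X, P ≤ K
  ne_top : ∀ K ∈ X, K ≠ ⊤
  cover : ∀ x : S.G, ∃ K ∈ X, x ∈ K
  inf : ∀ K ∈ X, ∀ K' ∈ X, K ≠ K' → ∀ x ∈ K, x ∈ K' → x ∈ P
  orth : ∀ a : S.G, a ∉ P → ∀ K ∈ X, a ∈ K → ∀ b : S.G, S.q a b = S.zero →
    b ∈ K ∧ (b ∈ P → b = 1)

section

variable {S : QData} (h : IsQuat S) {P : Subgroup S.G} {X : Set (Subgroup S.G)}
  (hX : IsPart S P X)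

include h hX in
/-- elements orthogonal to an element of `P` different from `1` are in `P` -/
lemma orthP {p b : S.G} (hp : p ∈ P) (hp1 : p ≠ 1) (hb : S.q p b = S.zero) : b ∈ P := by
  by_contra hbP
  obtain ⟨K, hK, hbK⟩ := hX.cover b
  exact hp1 ((hX.orth b hbP K hK hbK p (sy h hb)).2 hp)

include h hX in
/-- a quaternion with slots in different parts has no representation inside one part -/
lemma no_inner {A B C : Subgroup S.G} (hA : A ∈ X) (hB : B ∈ X) (hC : C ∈ X) (hAB : A ≠ B)
    {a b u x : S.G} (haA : a ∈ A) (haP : a ∉ P) (hbB : b ∈ B) (hbP : b ∉ P) (hu : u ∈ C)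
    (hx : x ∈ C) (e : S.q a b = S.q u x) : False := by
  have hne : S.q a b ≠ S.zero := by
    intro e0
    have h1 := (hX.orth a haP A hA haA b e0).1
    exact hbP (hX.inf A hA B hB hAB b h1 hbB)
  have hg : ∀ g : S.G, S.q a (b * g) = S.zero → g ∉ A := by
    intro g h1 hgA
    have h2 := (hX.orth a haP A hA haA _ h1).1
    have h3 : b ∈ A := (Subgroup.mul_mem_cancel_right A hgA).1 h2
    exact hbP (hX.inf A hA B hB hAB b h3 hbB)
  -- the case of a slot outside `P`
  have key : ∀ u x : S.G, u ∈ C → x ∈ C → u ∉ P → S.q a b = S.q u x → False := by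
    intro u x hu hx huP e
    obtain ⟨g, h1, h2, h3⟩ := link h e
    have hgA := hg g h1
    have h4 : x * g ∈ C := (hX.orth u huP C hC hu _ h2).1
    have hgC : g ∈ C := (Subgroup.mul_mem_cancel_left C hx).1 h4
    have hCA : C ≠ A := by
      rintro rfl
      exact hgA hgC
    have hauP : a * u ∉ P := by
      intro hc
      have h5 : u ∈ A := (Subgroup.mul_mem_cancel_left A haA).1 (hX.le A hA hc)
      exact huP (hX.inf C hC A hA hCA u hu h5)
    obtain ⟨D, hD, hauD⟩ := hX.cover (a * u)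
    have hgD : g ∈ D := (hX.orth _ hauP D hD hauD g (sy h h3)).1
    by_cases hDC : D = C
    · rw [hDC] at hauD
      have h6 : a ∈ C := (Subgroup.mul_mem_cancel_right C hu).1 hauD
      exact haP (hX.inf A hA C hC hCA.symm a haA h6)
    · exact hgA (hX.le A hA (hX.inf D hD C hC hDC g hgD hgC))
  by_cases huP : u ∈ P
  · by_cases hxP : x ∈ P
    · obtain ⟨g, h1, h2, -⟩ := link h e
      by_cases hu1 : u = 1
      · apply hne
        rw [e, hu1, h.qs2]
        exact q_one h x
      · have h3 : x * g ∈ P := orthP h hX huP hu1 h2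
        exact hg g h1 (hX.le A hA ((Subgroup.mul_mem_cancel_left P hxP).1 h3))
    · exact key x u hx hu hxP (by rw [h.qs2 x u]; exact e)
  · exact key u x hu hx huP e

include h hX in
/-- the slots of such a quaternion have pairwise trivially meeting value groups -/
lemma indep_of_part {A B : Subgroup S.G} (hA : A ∈ X) (hB : B ∈ X) (hAB : A ≠ B)
    {a b : S.G} (haA : a ∈ A) (haP : a ∉ P) (hbB : b ∈ B) (hbP : b ∉ P) :
    (∀ c : S.G, S.q c c ≠ S.q a b) ∧ Indep S (S.q a b) := by
  have NI : ∀ C ∈ X, ∀ u ∈ C, ∀ x ∈ C, S.q u x ≠ S.q a b := fun C hC u hu x hx e =>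
    no_inner h hX hA hB hC hAB haA haP hbB hbP hu hx e.symm
  have out : ∀ u : S.G, (∃ x, S.q u x = S.q a b) → u ∉ P := by
    rintro u ⟨x, hx⟩ hu
    obtain ⟨C, hC, hxC⟩ := hX.cover x
    exact NI C hC u (hX.le C hC hu) x hxC hx
  refine ⟨?_, ?_⟩
  · intro c hc
    obtain ⟨C, hC, hcC⟩ := hX.cover c
    exact NI C hC c hcC c hcC hc
  · intro u v huv hu hv d h1 h2
    have huP := out u hu
    have hvP := out v hv
    obtain ⟨U, hU, huU⟩ := hX.cover u
    obtain ⟨W, hW, hvW⟩ := hX.cover v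
    by_cases hUW : U = W
    · exfalso
      subst hUW
      obtain ⟨x, hx⟩ := hu
      obtain ⟨y, hy⟩ := hv
      obtain ⟨g, h3, h4, h5⟩ := link h (hx.trans hy.symm)
      have e1 : S.q u g = S.q a b := ((h.qs3 _ _ _).2 h3).symm.trans hx
      have hgU : g ∉ U := fun hg => NI U hU u huU g hg e1
      have huv1 : u * v ≠ 1 := fun e => huv (eq_of_mul h _ _ e)
      by_cases huvP : u * v ∈ P
      · exact hgU (hX.le U hU (orthP h hX huvP huv1 (sy h h5)))
      · exact hgU (hX.orth _ huvP U hU (U.mul_mem huU hvW) g (sy h h5)).1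
    · have h3 := (hX.orth u huP U hU huU d h1)
      have h4 := (hX.orth v hvP W hW hvW d h2)
      exact h3.2 (hX.inf U hU W hW hUW d h3.1 h4.1)

include h hX in
/-- outside one of the parts all elements are birigid -/
theorem exists_part [Finite S.G] : ∃ A ∈ X, ∀ g : S.G, g ∉ A → Bi S g := by
  have fin : ∀ A ∈ X, (∀ g : S.G, g ∉ A → Hr S g) → ∀ g : S.G, g ∉ A → Bi S g := by
    intro A hA hr g hg
    have hnA : S.neg ∈ A := hX.le A hA hX.neg
    refine ⟨fun e => hg (by rw [e]; exact A.one_mem), fun e => hg (by rw [e]; exact hnA), hr g hg,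
      hr _ fun hc => hg ((Subgroup.mul_mem_cancel_left A hnA).1 hc)⟩
  by_cases hbad : ∃ a : S.G, a ∉ P ∧ ¬ Hr S a
  · obtain ⟨a, haP, ha⟩ := hbad
    obtain ⟨A, hA, haA⟩ := hX.cover a
    refine ⟨A, hA, fin A hA fun g hgA => ?_⟩
    have hgP : g ∉ P := fun hc => hgA (hX.le A hA hc)
    obtain ⟨B, hB, hgB⟩ := hX.cover g
    have hAB : A ≠ B := by
      rintro rfl
      exact hgA hgB
    obtain ⟨h1, h2⟩ := indep_of_part h hX hA hB hAB haA haP hgB hgP
    obtain ⟨w, hw⟩ := rigid_slots h h1 h2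
    by_cases hgw : g = w
    · exfalso
      apply ha
      refine hw a ?_ ⟨g, rfl⟩
      rw [← hgw]
      rintro rfl
      exact hgA haA
    · exact hw g hgw ⟨a, by rw [h.qs2]⟩
  · push Not at hbad
    obtain ⟨A, hA, -⟩ := hX.cover 1
    exact ⟨A, hA, fin A hA fun g hg => hbad g fun hc => hg (hX.le A hA hc)⟩

include h hX in
/-- the group has at least four elements -/
theorem four_le [Finite S.G] : 4 ≤ Nat.card S.G := by
  classical
  obtain ⟨A, hA, h1A⟩ := hX.cover 1
  obtain ⟨x, hx⟩ : ∃ x : S.G, x ∉ A := by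
    by_contra hc
    push Not at hc
    exact hX.ne_top A hA (eq_top_iff.2 fun x _ => hc x)
  obtain ⟨B, hB, hxB⟩ := hX.cover x
  obtain ⟨y, hy⟩ : ∃ y : S.G, y ∉ B := by
    by_contra hc
    push Not at hc
    exact hX.ne_top B hB (eq_top_iff.2 fun x _ => hc x)
  have hx1 : x ≠ 1 := fun e => hx (by rw [e]; exact h1A)
  have hy1 : y ≠ 1 := fun e => hy (by rw [e]; exact B.one_mem)
  have hyx : y ≠ x := fun e => hy (by rw [e]; exact hxB)
  have hf : Fintype S.G := Fintype.ofFinite _
  have hc : ({1, x, y, x * y} : Finset S.G).card = 4 := by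
    rw [Finset.card_insert_of_notMem, Finset.card_insert_of_notMem, Finset.card_insert_of_notMem,
      Finset.card_singleton]
    · rw [Finset.mem_singleton]
      intro e
      exact hx1 (right_eq_mul.1 e)
    · simp only [Finset.mem_insert, Finset.mem_singleton, not_or]
      exact ⟨hyx.symm, fun e => hy1 (left_eq_mul.1 e)⟩
    · simp only [Finset.mem_insert, Finset.mem_singleton, not_or]
      exact ⟨hx1.symm, hy1.symm, fun e => hyx (eq_of_mul h _ _ e.symm).symm⟩
  rw [Nat.card_eq_fintype_card, ← hc]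
  exact Finset.card_le_univ _

include h hX in
/-- the structure is an iterated group extension of the structure on one of the parts -/
theorem iter_part [Finite S.G] : ∃ A ∈ X, ∃ hneg : S.neg ∈ A, IsQuat (restrN S A hneg) ∧
    ∃ k : ℕ, 1 ≤ k ∧ 2 ^ k * Nat.card A = Nat.card S.G ∧ Iso (ext^[k] (restrN S A hneg)) S := by
  obtain ⟨A, hA, hbi⟩ := exists_part h hX
  have hneg : S.neg ∈ A := hX.le A hA hX.neg
  obtain ⟨k, hk1, hk2⟩ := chain _ S h inferInstance le_rfl A hneg hbi
  refine ⟨A, hA, hneg, (isQuat_restrN h A hneg hbi).1, k, ?_, hk1, hk2⟩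
  by_contra hk
  have hk0 : k = 0 := by omega
  rw [hk0, pow_zero, one_mul] at hk1
  exact hX.ne_top A hA (Subgroup.eq_top_of_card_eq A hk1)

/-- the parts given by a subgroup outside which all elements are birigid -/
def parts (S : QData) (B : Subgroup S.G) : Set (Subgroup S.G) :=
  {K | K = B ∨ ∃ g : S.G, g ∉ B ∧ K = Subgroup.zpowers g}

include h in
lemma mem_zp {g a : S.G} (ha : a ∈ Subgroup.zpowers g) : a = 1 ∨ a = g := by
  obtain ⟨n, rfl⟩ := Subgroup.mem_zpowers_iff.1 ha
  have h2 : g ^ (2 : ℤ) = 1 := by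
    rw [zpow_two]
    exact h.exp2 g
  rcases Int.even_or_odd' n with ⟨m, hm | hm⟩
  · left
    rw [hm, zpow_mul, h2, one_zpow]
  · right
    rw [hm, zpow_add, zpow_mul, h2, one_zpow, one_mul, zpow_one]

include h in
/-- the converse for `-1 = 1` -/
theorem part_of_bi [Finite S.G] (hn : S.neg = 1) (h4 : 4 ≤ Nat.card S.G) (B : Subgroup S.G)
    (hB : B ≠ ⊤) (hbi : ∀ g : S.G, g ∉ B → Bi S g) : IsPart S ⊥ (parts S B) := by
  have key : ∀ K ∈ parts S B, ∀ K' ∈ parts S B, K ≠ K' → ∀ x ∈ K, x ∈ K' → x = 1 := by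
    rintro K (rfl | ⟨g, hg, rfl⟩) K' (rfl | ⟨g', hg', rfl⟩) hne x hx hx'
    · exact absurd rfl hne
    · rcases mem_zp h hx' with e | e
      · exact e
      · exact absurd (e ▸ hx) hg'
    · rcases mem_zp h hx with e | e
      · exact e
      · exact absurd (e ▸ hx') hg
    · rcases mem_zp h hx with e | e
      · exact e
      · rcases mem_zp h hx' with e' | e'
        · exact e'
        · exact absurd (by rw [← e, ← e']) hne
  refine ⟨by rw [hn]; exact Subgroup.one_mem _, fun _ _ => bot_le, ?_, ?_, ?_, ?_⟩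
  · rintro K (rfl | ⟨g, hg, rfl⟩)
    · exact hB
    · intro e
      have h1 : Nat.card (Subgroup.zpowers g) = Nat.card S.G := by rw [e, Subgroup.card_top]
      have h2 : Nat.card (Subgroup.zpowers g) ≤ 2 := by
        rw [Nat.card_zpowers]
        exact orderOf_le_of_pow_eq_one (by norm_num) (by rw [pow_two]; exact h.exp2 _)
      omega
  · intro x
    by_cases hx : x ∈ B
    · exact ⟨B, Or.inl rfl, hx⟩
    · exact ⟨_, Or.inr ⟨x, hx, rfl⟩, Subgroup.mem_zpowers x⟩
  · intro K hK K' hK' hne x hx hx'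
    rw [Subgroup.mem_bot]
    exact key K hK K' hK' hne x hx hx'
  · intro a ha K hK haK b hab
    rw [Subgroup.mem_bot] at ha
    refine ⟨?_, fun hb => Subgroup.mem_bot.1 hb⟩
    rcases hK with rfl | ⟨g, hg, rfl⟩
    · exact (isQuat_restrN h K (by rw [hn]; exact K.one_mem) hbi).2 a b haK ha hab
    · rcases mem_zp h haK with e | e
      · exact absurd e ha
      · rw [e] at hab
        rcases (hbi g hg).2.2.1 b hab with e1 | e1
        · rw [e1]; exact Subgroup.one_mem _
        · rw [e1, hn, one_mul]; exact Subgroup.mem_zpowers g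

end

end Pool.Agent.U499.EPT
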