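import Mathlib
import Pool.Agent.U499.EPT.Part
import Pool.Agent.U863.CG.Rigid
import Pool.Agent.Y920.ETC.FieldR
import Pool.Agent.Y920.ETC.GalH
import Pool.Agent.Y620.ET.Extv
import Pool.Agent.Y620.ET.Res
import Pool.Agent.Y37.ET.Max2

set_option autoImplicit false
set_option linter.unusedSimpArgs false

/-! Partitions of the group of square classes and valuation rings. -/

namespace Pool.Agent.U499.EPT

open Pool.Agent.H315R3.ETC Pool.Agent.TH188.ET Pool.Agent.Y920.ETC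
open scoped Quaternion

section

variable {F : Type} [Field F]

/-- `X` is a partition of `F*` modulo `P` into proper subgroups -/
structure FPart (F : Type) [Field F] (P : Subgroup Fˣ) (X : Set (Subgroup Fˣ)) : Prop where
  sq : sqG F ≤ P
  neg : (-1 : Fˣ) ∈ P
  le : ∀ K ∈ X, P ≤ K
  ne_top : ∀ K ∈ X, K ≠ ⊤
  cover : ∀ x : Fˣ, ∃ K ∈ X, x ∈ K
  inf : ∀ K ∈ X, ∀ K' ∈ X, K ≠ K' → K ⊓ K' = P

/-- `x` and `1 + x` lie in the same part -/
def Sums (P : Subgroup Fˣ) (X : Set (Subgroup Fˣ)) : Prop :=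
  ∀ x v : Fˣ, x ∉ P → (v : F) = 1 + x → ∀ K ∈ X, x ∈ K → v ∈ K ∧ (v ∈ P → v ∈ sqG F)

/-- `a` and the elements of `N(a)` lie in the same part -/
def Norms (P : Subgroup Fˣ) (X : Set (Subgroup Fˣ)) : Prop :=
  ∀ a : Fˣ, a ∉ P → ∀ K ∈ X, a ∈ K → ∀ v : Fˣ, NormFrom a v → v ∈ K ∧ (v ∈ P → v ∈ sqG F)

theorem norms_of_sums {P : Subgroup Fˣ} {X : Set (Subgroup Fˣ)} (hX : FPart F P X)
    (hs : Sums P X) : Norms P X := by
  rintro a ha K hK haK v ⟨x, y, hxy⟩
  have hPK := hX.le K hK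
  have hnK : (-1 : Fˣ) ∈ K := hPK hX.neg
  by_cases hy : y = 0
  · have hx : x ≠ 0 := by
      rintro rfl
      apply v.ne_zero
      rw [hxy, hy]
      ring
    have hv : v ∈ sqG F := by
      rw [mem_sqG]
      refine ⟨Units.mk0 x hx, Units.ext ?_⟩
      push_cast
      rw [Units.val_mk0, hxy, hy]
      ring
    exact ⟨hPK (hX.sq hv), fun _ => hv⟩
  · by_cases hx : x = 0
    · have hv : v = -1 * a * (Units.mk0 y hy) ^ 2 := by
        apply Units.ext
        push_cast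
        rw [Units.val_mk0, hxy, hx]
        ring
      have h1 : -1 * a * (Units.mk0 y hy) ^ 2 ∈ K :=
        K.mul_mem (K.mul_mem hnK haK) (hPK (hX.sq (mem_sqG.2 ⟨_, rfl⟩)))
      refine ⟨by rw [hv]; exact h1, fun hvP => ?_⟩
      exfalso
      apply ha
      rw [hv] at hvP
      have h2 := (P.mul_mem_cancel_right (hX.sq (mem_sqG.2 ⟨_, rfl⟩))).1 hvP
      exact (P.mul_mem_cancel_left hX.neg).1 h2
    · -- `v = x² (1 + x')`
      set c : Fˣ := Units.mk0 y hy * (Units.mk0 x hx)⁻¹ with hc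
      have hxP : -1 * a * c ^ 2 ∉ P := by
        intro hcP
        apply ha
        have h2 := (P.mul_mem_cancel_right (hX.sq (mem_sqG.2 ⟨c, rfl⟩))).1 hcP
        exact (P.mul_mem_cancel_left hX.neg).1 h2
      have hxK : -1 * a * c ^ 2 ∈ K :=
        K.mul_mem (K.mul_mem hnK haK) (hPK (hX.sq (mem_sqG.2 ⟨_, rfl⟩)))
      have hv : ((v * ((Units.mk0 x hx)⁻¹) ^ 2 : Fˣ) : F) = 1 + ((-1 * a * c ^ 2 : Fˣ) : F) := by
        rw [hc]
        push_cast
        rw [Units.val_mk0, Units.val_mk0, hxy]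
        field_simp
        ring
      obtain ⟨h1, h2⟩ := hs _ _ hxP hv K hK hxK
      have hsq : ((Units.mk0 x hx)⁻¹) ^ 2 ∈ sqG F := mem_sqG.2 ⟨_, rfl⟩
      refine ⟨(K.mul_mem_cancel_right (hPK (hX.sq hsq))).1 h1, fun hvP => ?_⟩
      exact ((sqG F).mul_mem_cancel_right hsq).1 (h2 (P.mul_mem hvP (hX.sq hsq)))

theorem sums_of_norms {P : Subgroup Fˣ} {X : Set (Subgroup Fˣ)} (hX : FPart F P X)
    (hs : Norms P X) : Sums P X := by
  intro x v hx hv K hK hxK
  have hnK : (-1 : Fˣ) ∈ K := hX.le K hK hX.neg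
  have e : -x = -1 * x := by rw [neg_one_mul]
  refine hs (-x) ?_ K hK ?_ v ⟨1, 1, by rw [hv, Units.val_neg]; ring⟩
  · rw [e]
    exact fun hc => hx ((P.mul_mem_cancel_left hX.neg).1 hc)
  · rw [e]
    exact K.mul_mem hnK hxK

variable {S : QData} {φ : Fˣ →* S.G} (hs : Function.Surjective φ)
  (hk : ∀ a : Fˣ, φ a = 1 ↔ ∃ b : Fˣ, a = b ^ 2) (hn : φ (-1) = S.neg)
  (h0 : S.q 1 1 = S.zero)
  (hq : ∀ a b c d : Fˣ, S.q (φ a) (φ b) = S.q (φ c) (φ d) ↔
      Nonempty (ℍ[F,(a : F),0,(b : F)] ≃ₐ[F] ℍ[F,(c : F),0,(d : F)]))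

include hk in
lemma mem_map_iff' {K : Subgroup Fˣ} (hK : sqG F ≤ K) (x : Fˣ) : φ x ∈ K.map φ ↔ x ∈ K := by
  constructor
  · rintro ⟨y, hy, hyx⟩
    obtain ⟨e, rfl⟩ := eq_mul_sq hk hyx
    exact K.mul_mem hy (hK (mem_sqG.2 ⟨e, rfl⟩))
  · intro hx
    exact ⟨x, hx, rfl⟩

include hs hk hn h0 hq in
/-- the partition of the structure of the field -/
theorem isPart_map (h2 : (2 : F) ≠ 0) {P : Subgroup Fˣ} {X : Set (Subgroup Fˣ)}
    (hX : FPart F P X) (hN : Norms P X) :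
    IsPart S (P.map φ) {K' | ∃ K ∈ X, K' = K.map φ} := by
  have hle : ∀ K ∈ X, sqG F ≤ K := fun K hK => hX.sq.trans (hX.le K hK)
  refine ⟨by rw [← hn]; exact ⟨-1, hX.neg, rfl⟩, ?_, ?_, ?_, ?_, ?_⟩
  · rintro _ ⟨K, hK, rfl⟩
    exact Subgroup.map_mono (hX.le K hK)
  · rintro _ ⟨K, hK, rfl⟩ e
    apply hX.ne_top K hK
    rw [eq_top_iff]
    intro x _
    rw [← mem_map_iff' hk (hle K hK), e]
    exact Subgroup.mem_top _
  · intro g
    obtain ⟨x, rfl⟩ := hs g
    obtain ⟨K, hK, hxK⟩ := hX.cover x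
    exact ⟨_, ⟨K, hK, rfl⟩, x, hxK, rfl⟩
  · rintro _ ⟨K, hK, rfl⟩ _ ⟨K', hK', rfl⟩ hne g hg hg'
    obtain ⟨x, rfl⟩ := hs g
    rw [mem_map_iff' hk (hle K hK)] at hg
    rw [mem_map_iff' hk (hle K' hK')] at hg'
    rw [mem_map_iff' hk hX.sq, ← hX.inf K hK K' hK' (fun e => hne (by rw [e]))]
    exact ⟨hg, hg'⟩
  · rintro g hg _ ⟨K, hK, rfl⟩ hgK f hgf
    obtain ⟨a, rfl⟩ := hs g
    obtain ⟨b, rfl⟩ := hs f
    rw [mem_map_iff' hk hX.sq] at hg
    rw [mem_map_iff' hk (hle K hK)] at hgK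
    rw [q_zero h0 hq h2] at hgf
    obtain ⟨h3, h4⟩ := hN a hg K hK hgK b hgf
    rw [mem_map_iff' hk (hle K hK), mem_map_iff' hk hX.sq, hk, ← mem_sqG]
    exact ⟨h3, h4⟩

end

section

variable {F : Type} [Field F]

/-- rigid elements outside a subgroup of index two give a valuation, `-1` a square -/
theorem val_of_rigid (h2 : (2 : F) ≠ 0) (hneg : (-1 : Fˣ) ∈ sqG F) {S : QData} (hQ : IsQuat S)
    [Finite S.G] {φ : Fˣ →* S.G} (hs : Function.Surjective φ)
    (hk : ∀ a : Fˣ, φ a = 1 ↔ ∃ b : Fˣ, a = b ^ 2) (hn : φ (-1) = S.neg)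
    (h0 : S.q 1 1 = S.zero)
    (hq : ∀ a b c d : Fˣ, S.q (φ a) (φ b) = S.q (φ c) (φ d) ↔
      Nonempty (ℍ[F,(a : F),0,(b : F)] ≃ₐ[F] ℍ[F,(c : F),0,(d : F)]))
    (h4 : 4 ≤ Nat.card S.G) (H : Subgroup Fˣ) (hT : sqG F ≤ H)
    (hidx : ∀ x y : Fˣ, x ∉ H → y ∉ H → x * y ∈ H) (htop : ∃ c : Fˣ, c ∉ H)
    (hrig : ∀ x y : Fˣ, x ∉ H → NormFrom x y → y ∈ sqG F ∨ y * x⁻¹ ∈ sqG F) :
    ∃ O : ValuationSubring F, Sqr O ∧
      ∃ c : Fˣ, ∀ f : Fˣ, ¬ (((c * f ^ 2 : Fˣ) : F) ∈ O ∧ (((c * f ^ 2)⁻¹ : Fˣ) : F) ∈ O) := by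
  classical
  have hnH : (-1 : Fˣ) ∈ H := hT hneg
  have hR : RigidPair (sqG F) H := by
    refine ⟨fun x => mem_sqG.2 ⟨x, (pow_two x).symm⟩, hT, hnH, ?_⟩
    intro x hx
    have e : -x = -1 * x := by rw [neg_one_mul]
    have hx' : -x ∉ H := by
      rw [e]
      exact fun hc => hx ((H.mul_mem_cancel_left hnH).1 hc)
    have hne1 : (1 : F) + x ≠ 0 := by
      intro e
      apply hx
      have h3 : x = -1 := by
        apply Units.ext
        push_cast
        linear_combination e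
      rw [h3]
      exact hnH
    have h1 : NormFrom (-x) (Units.mk0 _ hne1) := ⟨1, 1, by
      rw [Units.val_mk0, Units.val_neg]; ring⟩
    rcases hrig _ _ hx' h1 with h3 | h3
    · exact Or.inl ⟨_, h3, by rw [Units.val_mk0]⟩
    · right
      refine ⟨Units.mk0 _ hne1 * x⁻¹, ?_, ?_⟩
      · rw [inv_neg, mul_neg, Pool.Agent.U863.CG.neg_mem_iff hneg] at h3
        exact h3
      · rw [mul_comm x, inv_mul_cancel_right, Units.val_mk0]
  by_cases hall : ∃ b b' : Fˣ, b ∉ sqG F ∧ (b' : F) = 1 + b ∧ b' ∉ sqG F ∧ b' * b⁻¹ ∉ sqG F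
  · obtain ⟨b, b', hbT, hbe, hb'T, hbb⟩ := hall
    have hbH : b ∈ H := by
      by_contra hbH
      rcases hR.rigid b hbH with ⟨t, ht, hte⟩ | ⟨t, ht, hte⟩
      · apply hb'T
        have : b' = t := Units.ext (by rw [hbe, hte])
        rw [this]
        exact ht
      · apply hbb
        have : b' = b * t := Units.ext (by rw [hbe, hte])
        rw [this, mul_comm b t, mul_inv_cancel_right]
        exact ht
    have hpcd : PCD (sqG F) H :=
      Pool.Agent.U863.CG.pcd hR hneg hidx hbH hbT hb'T hbb hbe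
    obtain ⟨O, hO⟩ := Pool.Agent.Y447.ET.t_WB F _ _ hR hpcd
    have hTT : ∀ x : Fˣ, x ∈ sqG F ↔ ∃ y : Fˣ, x = y * y := by
      intro x
      rw [mem_sqG]
      constructor
      · rintro ⟨y, rfl⟩; exact ⟨y, pow_two y⟩
      · rintro ⟨y, rfl⟩; exact ⟨y, (pow_two y).symm⟩
    obtain ⟨O', hOO', h2O', hO'⟩ := Pool.Agent.Y67.ET.t_COARSE F h2 _ _ hTT hR.le O hO
    refine ⟨O', ⟨h2O', h2, ?_⟩, ?_⟩
    · intro x hx hx'
      obtain ⟨t, ht, hte⟩ := hO'.one x hx hx'
      obtain ⟨y, rfl⟩ := (hTT t).1 ht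
      exact ⟨y, by rw [← hte, Units.val_mul]⟩
    · obtain ⟨x, hx⟩ := htop
      refine ⟨x, fun f ⟨h3, h4⟩ => ?_⟩
      have h5 : x * f ^ 2 ∈ H := hO'.units _ h3 h4
      exact hx ((H.mul_mem_cancel_right (hT (mem_sqG.2 ⟨f, rfl⟩))).1 h5)
  · -- all elements are rigid
    have hrig2 : ∀ x y : Fˣ, x ∉ sqG F → NormFrom x y → y ∈ sqG F ∨ y * x⁻¹ ∈ sqG F := by
      rintro x y hx ⟨r, s, hrs⟩
      by_cases hs0 : s = 0
      · left
        have hr0 : r ≠ 0 := by
          rintro rfl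
          apply y.ne_zero
          rw [hrs, hs0]
          ring
        rw [mem_sqG]
        refine ⟨Units.mk0 r hr0, Units.ext ?_⟩
        push_cast
        rw [Units.val_mk0, hrs, hs0]
        ring
      · by_cases hr0 : r = 0
        · right
          have h3 : y * x⁻¹ = -(Units.mk0 s hs0) ^ 2 := by
            apply Units.ext
            push_cast
            rw [Units.val_mk0, hrs, hr0]
            have := x.ne_zero
            field_simp
            ring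
          rw [h3, Pool.Agent.U863.CG.neg_mem_iff hneg, mem_sqG]
          exact ⟨_, rfl⟩
        · -- `y = r² (1 + b)`
          by_contra hcon
          rw [not_or] at hcon
          apply hall
          have hbx : -(x * (Units.mk0 s hs0 * (Units.mk0 r hr0)⁻¹) ^ 2) ∉ sqG F := by
            rw [Pool.Agent.U863.CG.neg_mem_iff hneg]
            intro h3
            exact hx (((sqG F).mul_mem_cancel_right (mem_sqG.2 ⟨_, rfl⟩)).1 h3)
          refine ⟨-(x * (Units.mk0 s hs0 * (Units.mk0 r hr0)⁻¹) ^ 2), y * ((Units.mk0 r hr0)⁻¹) ^ 2,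
            hbx, ?_, ?_, ?_⟩
          · push_cast
            rw [Units.val_mk0, Units.val_mk0, hrs]
            field_simp
            ring
          · intro h3
            exact hcon.1 (((sqG F).mul_mem_cancel_right (mem_sqG.2 ⟨_, rfl⟩)).1 h3)
          · intro h3
            apply hcon.2
            have h4 : y * x⁻¹ = -(y * ((Units.mk0 r hr0)⁻¹) ^ 2 *
                (-(x * (Units.mk0 s hs0 * (Units.mk0 r hr0)⁻¹) ^ 2))⁻¹ * (Units.mk0 s hs0) ^ 2) := by
              apply Units.ext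
              push_cast
              rw [Units.val_mk0, Units.val_mk0]
              have := x.ne_zero
              field_simp
            rw [h4, Pool.Agent.U863.CG.neg_mem_iff hneg]
            exact (sqG F).mul_mem h3 (mem_sqG.2 ⟨_, rfl⟩)
    have hneg' : S.neg = 1 := by
      rw [← hn, hk]
      exact mem_sqG.1 hneg
    have hHr : ∀ g : S.G, g ≠ 1 → Hr S g := by
      intro g hg f hgf
      obtain ⟨x, rfl⟩ := hs g
      obtain ⟨y, rfl⟩ := hs f
      have h3 : NormFrom x y := (q_zero h0 hq h2 x y).1 hgf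
      have h4 : x ∉ sqG F := by
        rw [mem_sqG, ← hk]
        exact hg
      rcases hrig2 x y h4 h3 with h5 | h5
      · left
        rw [hk]
        exact mem_sqG.1 h5
      · right
        rw [hneg', one_mul]
        rw [mem_sqG, ← hk, map_mul, map_inv, mul_inv_eq_one] at h5
        exact h5
    have hB : ∀ g : S.G, g ∈ (⊥ : Subgroup S.G) ↔ ¬ Bi S g := by
      intro g
      rw [Subgroup.mem_bot]
      constructor
      · rintro rfl h3
        exact h3.1 rfl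
      · intro h3
        by_contra h4
        exact h3 ⟨h4, by rw [hneg']; exact h4, hHr g h4,
          hHr _ (by rw [hneg', one_mul]; exact h4)⟩
    have hcard : 2 * Nat.card (⊥ : Subgroup S.G) < Nat.card S.G := by
      rw [Subgroup.card_bot]
      omega
    obtain ⟨O, hO, -, hc⟩ := exists_val hs hk hn h0 hq h2 ⊥ hB hcard
    exact ⟨O, hO, hc⟩

/-- from partitions to valuation rings -/
theorem val_of_part (h2 : (2 : F) ≠ 0) (hfin : (sqG F).index ≠ 0) {P : Subgroup Fˣ}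
    {X : Set (Subgroup Fˣ)} (hX : FPart F P X) (hN : Norms P X)
    (hor : (-1 : Fˣ) ∈ sqG F ∨ ∀ K ∈ X, 2 < K.index) :
    ∃ O : ValuationSubring F, Sqr O ∧
      ∃ c : Fˣ, ∀ f : Fˣ, ¬ (((c * f ^ 2 : Fˣ) : F) ∈ O ∧ (((c * f ^ 2)⁻¹ : Fˣ) : F) ∈ O) := by
  obtain ⟨S, hS, hSf, hSq⟩ := exists_structure h2 (finSq_of_index hfin)
  obtain ⟨φ, hs, hk, hn, h0, hq⟩ := hS
  have hP := isPart_map hs hk hn h0 hq h2 hX hN
  obtain ⟨A, ⟨K, hK, rfl⟩, hbi⟩ := exists_part hSq hP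
  have hle : sqG F ≤ K := hX.sq.trans (hX.le K hK)
  rcases hor with hneg | hidx
  · obtain ⟨c, hc⟩ : ∃ c : Fˣ, c ∉ K := by
      by_contra hc
      push Not at hc
      exact hX.ne_top K hK (eq_top_iff.2 fun x _ => hc x)
    have hc' : φ c ∉ K.map φ := fun h1 => hc ((mem_map_iff' hk hle c).1 h1)
    obtain ⟨M, hKM, hcM, hM⟩ := split hSq.exp2 (K.map φ) (φ c) hc'
    have hneg' : S.neg = 1 := by
      rw [← hn, hk]
      exact mem_sqG.1 hneg
    refine val_of_rigid h2 hneg hSq hs hk hn h0 hq (four_le hSq hP) (M.comap φ) ?_ ?_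
      ⟨c, fun h1 => hcM h1⟩ ?_
    · intro x hx
      exact hKM ((mem_map_iff' hk hle x).2 (hle hx))
    · intro x y hx hy
      have h3 : φ x * φ c ∈ M := (hM (φ x)).resolve_left hx
      have h4 : φ y * φ c ∈ M := (hM (φ y)).resolve_left hy
      show φ (x * y) ∈ M
      have h5 := M.mul_mem h3 h4
      have h6 : φ x * φ c * (φ y * φ c) = φ (x * y) := by
        rw [map_mul, mul_mul_mul_comm, hSq.exp2, mul_one]
      rwa [h6] at h5
    · intro x y hx hxy
      have hxA : φ x ∉ K.map φ := fun h3 => hx (hKM h3)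
      have h3 := (hbi _ hxA).2.2.1 (φ y) ((q_zero h0 hq h2 x y).2 hxy)
      rcases h3 with h3 | h3
      · left
        rw [mem_sqG, ← hk]
        exact h3
      · right
        rw [mem_sqG, ← hk, map_mul, map_inv, mul_inv_eq_one, h3, hneg', one_mul]
  · obtain ⟨B, hB⟩ := Pool.Agent.Y67.ET.t_BASIC S hSq
    have hBA : B ≤ K.map φ := by
      intro g hg
      by_contra hgA
      exact (hB g).1 hg (hbi g hgA)
    have h1 : Nat.card B ≤ Nat.card (K.map φ) :=
      Nat.card_le_card_of_injective (Subgroup.inclusion hBA) (Subgroup.inclusion_injective hBA)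
    have h3 : (K.map φ).index = K.index := by
      rw [Subgroup.index_map, ker_eq hk, sup_eq_left.2 hle, MonoidHom.range_eq_top.2 hs,
        Subgroup.index_top, mul_one]
    have h4 : Nat.card (K.map φ) * K.index = Nat.card S.G := by
      rw [← h3]
      exact Subgroup.card_mul_index _
    have h5 := hidx K hK
    have h6 : 0 < Nat.card (K.map φ) := Nat.card_pos
    have h7 : 2 * Nat.card B < Nat.card S.G := by
      rw [← h4]
      nlinarith
    obtain ⟨O, hO, -, hc⟩ := exists_val hs hk hn h0 hq h2 B hB h7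
    exact ⟨O, hO, hc⟩

/-- from valuation rings to partitions, `-1` a square -/
theorem part_of_val (h2 : (2 : F) ≠ 0) (hfin : (sqG F).index ≠ 0) (h4 : 4 ≤ (sqG F).index)
    (hneg : (-1 : Fˣ) ∈ sqG F) (O : ValuationSubring F) (hO : Sqr O)
    (htop : O.unitGroup ⊔ sqG F ≠ ⊤) :
    ∃ X : Set (Subgroup Fˣ), FPart F (sqG F) X ∧ Norms (sqG F) X := by
  obtain ⟨S, hS, hSf, hSq⟩ := exists_structure h2 (finSq_of_index hfin)
  obtain ⟨φ, hs, hk, hn, h0, hq⟩ := hS
  have hneg' : S.neg = 1 := by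
    rw [← hn, hk]
    exact mem_sqG.1 hneg
  obtain ⟨-, -, hbi⟩ := Pool.Agent.Y620.ET.t_RES F O hO S φ hs hk hn h0 hq
  have hB : O.unitGroup.map φ ≠ ⊤ := by
    intro e
    apply htop
    rw [eq_top_iff]
    intro x _
    have h1 : φ x ∈ O.unitGroup.map φ := by rw [e]; exact Subgroup.mem_top _
    obtain ⟨y, hy, hyx⟩ := h1
    obtain ⟨c, rfl⟩ := eq_mul_sq hk hyx
    exact Subgroup.mul_mem_sup hy (mem_sqG.2 ⟨c, rfl⟩)
  have hc : 4 ≤ Nat.card S.G := by
    rw [card_eq hs hk]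
    exact h4
  have hP := part_of_bi hSq hneg' hc _ hB hbi
  have hsqle : ∀ K : Subgroup S.G, sqG F ≤ K.comap φ := by
    intro K x hx
    show φ x ∈ K
    rw [(hk x).2 (mem_sqG.1 hx)]
    exact K.one_mem
  refine ⟨{K | ∃ K' ∈ parts S (O.unitGroup.map φ), K = K'.comap φ}, ?_, ?_⟩
  · refine ⟨le_rfl, hneg, ?_, ?_, ?_, ?_⟩
    · rintro _ ⟨K, hK, rfl⟩
      exact hsqle K
    · rintro _ ⟨K, hK, rfl⟩ e
      apply hP.ne_top K hK
      rw [eq_top_iff]
      intro g _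
      obtain ⟨x, rfl⟩ := hs g
      have : x ∈ K.comap φ := by rw [e]; exact Subgroup.mem_top _
      exact this
    · intro x
      obtain ⟨K, hK, hxK⟩ := hP.cover (φ x)
      exact ⟨_, ⟨K, hK, rfl⟩, hxK⟩
    · rintro _ ⟨K, hK, rfl⟩ _ ⟨K', hK', rfl⟩ hne
      apply le_antisymm
      · rintro x ⟨hx, hx'⟩
        have h1 := hP.inf K hK K' hK' (fun e => hne (by rw [e])) _ hx hx'
        rw [mem_sqG, ← hk]
        exact Subgroup.mem_bot.1 h1
      · exact le_inf (hsqle K) (hsqle K')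
  · rintro a ha _ ⟨K, hK, rfl⟩ haK v hv
    have h1 : φ a ∉ (⊥ : Subgroup S.G) := by
      rw [Subgroup.mem_bot, hk, ← mem_sqG]
      exact ha
    exact ⟨(hP.orth _ h1 K hK haK (φ v) ((q_zero h0 hq h2 a v).2 hv)).1, fun h3 => h3⟩

end

end Pool.Agent.U499.EPT
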