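import Mathlib
import Pool.Agent.U499.EPT.Val
import Pool.Agent.U499.EPT.Gen

set_option autoImplicit false
set_option linter.unusedSimpArgs false

/-! Partitions of the group of square classes modulo `{1, -1}` and valuation rings. -/

namespace Pool.Agent.U499.EPT

open Pool.Agent.H315R3.ETC Pool.Agent.TH188.ET Pool.Agent.Y920.ETC
open scoped Quaternion

section

/-- the elements which are not birigid lie in one part or in the group generated by `V(-1)`, `-1` -/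
theorem bas_le {S : QData} (h : IsQuat S) [Finite S.G] {X : Set (Subgroup S.G)} (hX : Gen.GPart S X)
    (B : Subgroup S.G) (hB : ∀ a : S.G, a ∈ B ↔ ¬ Bi S a) (W : Subgroup S.G)
    (hW : ∀ g : S.G, S.q S.neg g = S.zero → g ∈ W) (hWn : S.neg ∈ W) :
    (∃ A ∈ X, B ≤ A) ∨ B ≤ W := by
  by_cases hin : Gen.NegIn S X
  · obtain ⟨A, hA, hbi⟩ := Gen.exists_part h hX hin
    refine Or.inl ⟨A, hA, fun g hg => ?_⟩
    by_contra hgA
    exact (hB g).1 hg (hbi g hgA)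
  · right
    intro g hg
    by_contra hgW
    refine (hB g).1 hg (Gen.bi_outside h hX hin g (fun h1 => hgW (hW g h1)) fun h1 => hgW ?_)
    exact (Subgroup.mul_mem_cancel_left W hWn).1 (hW _ h1)

end

section

variable {F : Type} [Field F]

/-- `X` is a partition of `F*` modulo `{1, -1} F*²` into proper subgroups such that `N(a)` is in
the part of `a` for `a ≠ 1, -1` modulo squares -/
structure FGPart (F : Type) [Field F] (X : Set (Subgroup Fˣ)) : Prop where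
  sq : ∀ K ∈ X, sqG F ≤ K
  neg : ∀ K ∈ X, (-1 : Fˣ) ∈ K
  ne_top : ∀ K ∈ X, K ≠ ⊤
  cover : ∀ x : Fˣ, ∃ K ∈ X, x ∈ K
  inf : ∀ K ∈ X, ∀ K' ∈ X, K ≠ K' → ∀ x ∈ K, x ∈ K' → x ∈ sqG F ∨ -1 * x ∈ sqG F
  norms : ∀ K ∈ X, ∀ a ∈ K, a ∉ sqG F → -1 * a ∉ sqG F → ∀ v : Fˣ, NormFrom a v → v ∈ K

variable {S : QData} {φ : Fˣ →* S.G} (hs : Function.Surjective φ)
  (hk : ∀ a : Fˣ, φ a = 1 ↔ ∃ b : Fˣ, a = b ^ 2) (hn : φ (-1) = S.neg)
  (h0 : S.q 1 1 = S.zero)
  (hq : ∀ a b c d : Fˣ, S.q (φ a) (φ b) = S.q (φ c) (φ d) ↔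
      Nonempty (ℍ[F,(a : F),0,(b : F)] ≃ₐ[F] ℍ[F,(c : F),0,(d : F)]))

include hk hn in
lemma eq_neg_iff (hx2 : ∀ g : S.G, g * g = 1) (x : Fˣ) : φ x = S.neg ↔ -1 * x ∈ sqG F := by
  rw [mem_sqG, ← hk, map_mul, hn]
  constructor
  · intro e
    rw [e, hx2]
  · intro e
    have h1 := congrArg (S.neg * ·) e
    simp only [← mul_assoc, hx2, one_mul, mul_one] at h1
    exact h1

include hs hk hn h0 hq in
/-- the partition of the structure of the field -/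
theorem gpart_map (h2 : (2 : F) ≠ 0) (hx2 : ∀ g : S.G, g * g = 1) {X : Set (Subgroup Fˣ)}
    (hX : FGPart F X) : Gen.GPart S {K' | ∃ K ∈ X, K' = K.map φ} := by
  refine ⟨?_, ?_, ?_, ?_, ?_⟩
  · rintro _ ⟨K, hK, rfl⟩
    rw [← hn]
    exact ⟨-1, hX.neg K hK, rfl⟩
  · rintro _ ⟨K, hK, rfl⟩ e
    apply hX.ne_top K hK
    rw [eq_top_iff]
    intro x _
    rw [← mem_map_iff' hk (hX.sq K hK), e]
    exact Subgroup.mem_top _
  · intro g
    obtain ⟨x, rfl⟩ := hs g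
    obtain ⟨K, hK, hxK⟩ := hX.cover x
    exact ⟨_, ⟨K, hK, rfl⟩, x, hxK, rfl⟩
  · rintro _ ⟨K, hK, rfl⟩ _ ⟨K', hK', rfl⟩ hne g hg hg'
    obtain ⟨x, rfl⟩ := hs g
    rw [mem_map_iff' hk (hX.sq K hK)] at hg
    rw [mem_map_iff' hk (hX.sq K' hK')] at hg'
    rcases hX.inf K hK K' hK' (fun e => hne (by rw [e])) x hg hg' with h1 | h1
    · left
      rw [hk]
      exact mem_sqG.1 h1
    · right
      rw [eq_neg_iff hk hn hx2]
      exact h1
  · rintro _ ⟨K, hK, rfl⟩ g hgK hg1 hgn f hgf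
    obtain ⟨a, rfl⟩ := hs g
    obtain ⟨b, rfl⟩ := hs f
    rw [mem_map_iff' hk (hX.sq K hK)] at hgK ⊢
    rw [q_zero h0 hq h2] at hgf
    refine hX.norms K hK a hgK ?_ ?_ b hgf
    · rw [mem_sqG, ← hk]
      exact hg1
    · rw [← eq_neg_iff hk hn hx2]
      exact hgn

end

section

variable {F : Type} [Field F]

/-- the index of the image -/
lemma index_map' {S : QData} {φ : Fˣ →* S.G} (hs : Function.Surjective φ)
    (hk : ∀ a : Fˣ, φ a = 1 ↔ ∃ b : Fˣ, a = b ^ 2) {K : Subgroup Fˣ} (hle : sqG F ≤ K) :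
    (K.map φ).index = K.index := by
  rw [Subgroup.index_map, ker_eq hk, sup_eq_left.2 hle, MonoidHom.range_eq_top.2 hs,
    Subgroup.index_top, mul_one]

/-- from partitions modulo `{1, -1}` to valuation rings -/
theorem val_of_gpart (h2 : (2 : F) ≠ 0) (hfin : (sqG F).index ≠ 0) {X : Set (Subgroup Fˣ)}
    (hX : FGPart F X) (hidx : ∀ K ∈ X, 2 < K.index) (W : Subgroup Fˣ)
    (hWn : (-1 : Fˣ) ∈ W) (hWs : ∀ v : Fˣ, NormFrom (-1) v → v ∈ W) (hW : 2 < W.index) :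
    ∃ O : ValuationSubring F, Sqr O ∧
      ∃ c : Fˣ, ∀ f : Fˣ, ¬ (((c * f ^ 2 : Fˣ) : F) ∈ O ∧ (((c * f ^ 2)⁻¹ : Fˣ) : F) ∈ O) := by
  obtain ⟨S, hS, hSf, hSq⟩ := exists_structure h2 (finSq_of_index hfin)
  obtain ⟨φ, hs, hk, hn, h0, hq⟩ := hS
  have hP := gpart_map hs hk hn h0 hq h2 hSq.exp2 hX
  have hWsq : sqG F ≤ W := by
    intro x hx
    obtain ⟨y, rfl⟩ := mem_sqG.1 hx
    exact hWs _ ⟨y, 0, by push_cast; ring⟩
  obtain ⟨B, hB⟩ := Pool.Agent.Y67.ET.t_BASIC S hSq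
  have key : ∀ K : Subgroup Fˣ, sqG F ≤ K → 2 < K.index → B ≤ K.map φ →
      2 * Nat.card B < Nat.card S.G := by
    intro K hle h5 hBA
    have h1 : Nat.card B ≤ Nat.card (K.map φ) :=
      Nat.card_le_card_of_injective (Subgroup.inclusion hBA) (Subgroup.inclusion_injective hBA)
    have h4 : Nat.card (K.map φ) * K.index = Nat.card S.G := by
      rw [← index_map' hs hk hle]
      exact Subgroup.card_mul_index _
    have h6 : 0 < Nat.card (K.map φ) := Nat.card_pos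
    rw [← h4]
    nlinarith
  have h7 : 2 * Nat.card B < Nat.card S.G := by
    rcases bas_le hSq hP B hB (W.map φ) (fun g hg => by
        obtain ⟨x, rfl⟩ := hs g
        rw [← hn, q_zero h0 hq h2] at hg
        exact ⟨x, hWs x hg, rfl⟩) (by rw [← hn]; exact ⟨-1, hWn, rfl⟩) with
      ⟨_, ⟨K, hK, rfl⟩, hBA⟩ | hBW
    · exact key K (hX.sq K hK) (hidx K hK) hBA
    · exact key W hWsq hW hBW
  obtain ⟨O, hO, -, hc⟩ := exists_val hs hk hn h0 hq h2 B hB h7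
  exact ⟨O, hO, hc⟩

end

/-- if `x` and `1 + x` are in the same part for `x` not in `P`, so are `a` and `N(a)` -/
theorem normsW_of_sums {F : Type} [Field F] {P : Subgroup Fˣ} {X : Set (Subgroup Fˣ)}
    (hsq : sqG F ≤ P) (hneg : (-1 : Fˣ) ∈ P) (hle : ∀ K ∈ X, P ≤ K)
    (hs : ∀ x v : Fˣ, x ∉ P → (v : F) = 1 + x → ∀ K ∈ X, x ∈ K → v ∈ K) :
    ∀ a : Fˣ, a ∉ P → ∀ K ∈ X, a ∈ K → ∀ v : Fˣ, NormFrom a v → v ∈ K := by
  rintro a ha K hK haK v ⟨x, y, hxy⟩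
  have hPK := hle K hK
  have hnK : (-1 : Fˣ) ∈ K := hPK hneg
  by_cases hy : y = 0
  · have hx : x ≠ 0 := by
      rintro rfl
      apply v.ne_zero
      rw [hxy, hy]
      ring
    have hv : v ∈ sqG F := by
      rw [mem_sqG]
      refine ⟨Units.mk0 x hx, Units.ext ?_⟩
      push_cast
      rw [Units.val_mk0, hxy, hy]
      ring
    exact hPK (hsq hv)
  · by_cases hx : x = 0
    · have hv : v = -1 * a * (Units.mk0 y hy) ^ 2 := by
        apply Units.ext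
        push_cast
        rw [Units.val_mk0, hxy, hx]
        ring
      have h1 : -1 * a * (Units.mk0 y hy) ^ 2 ∈ K :=
        K.mul_mem (K.mul_mem hnK haK) (hPK (hsq (mem_sqG.2 ⟨_, rfl⟩)))
      rw [hv]
      exact h1
    · set c : Fˣ := Units.mk0 y hy * (Units.mk0 x hx)⁻¹ with hc
      have hxP : -1 * a * c ^ 2 ∉ P := by
        intro hcP
        apply ha
        have h2 := (P.mul_mem_cancel_right (hsq (mem_sqG.2 ⟨c, rfl⟩))).1 hcP
        exact (P.mul_mem_cancel_left hneg).1 h2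
      have hxK : -1 * a * c ^ 2 ∈ K :=
        K.mul_mem (K.mul_mem hnK haK) (hPK (hsq (mem_sqG.2 ⟨_, rfl⟩)))
      have hv : ((v * ((Units.mk0 x hx)⁻¹) ^ 2 : Fˣ) : F) = 1 + ((-1 * a * c ^ 2 : Fˣ) : F) := by
        rw [hc]
        push_cast
        rw [Units.val_mk0, Units.val_mk0, hxy]
        field_simp
        ring
      have h1 := hs _ _ hxP hv K hK hxK
      have hsq' : ((Units.mk0 x hx)⁻¹) ^ 2 ∈ sqG F := mem_sqG.2 ⟨_, rfl⟩
      exact (K.mul_mem_cancel_right (hPK (hsq hsq'))).1 h1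

end Pool.Agent.U499.EPT
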