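import Mathlib
import Pool.Agent.U499.EPT.Gen

set_option autoImplicit false
set_option linter.unusedSimpArgs false

/-! Partitions of quaternionic structures modulo `{1, -1}`: splitting off `-1`. -/

namespace Pool.Agent.U499.EPT.Gen

open Pool.Agent.H315R3.ETC Pool.Agent.Y920.ETC Pool.Agent.U499.ETV

section

variable {S : QData} (h : IsQuat S) {K : Subgroup S.G} (hnK : S.neg ∉ K)
  (hK : ∀ y : S.G, y ∈ K ∨ y * S.neg ∈ K) (hK0 : ∀ y ∈ K, S.q S.neg y = S.zero)

include h hK hK0 in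
lemma restr_quat : IsQuat (restr S K) := by
  constructor
  · intro a
    exact Subtype.ext (h.exp2 a.1)
  · intro (a : K)
    show S.q a.1 ((1 * a : K) : S.G) = S.zero
    rw [one_mul]
    exact pm h (h.qs1 a.1) (sy h (hK0 _ a.2))
      (by simp only [mul_comm, mul_left_comm, mul_assoc, ec h.exp2, h.exp2, mul_one, one_mul])
  · intro a b
    exact h.qs2 _ _
  · intro a b c
    exact h.qs3 _ _ _
  · intro (a : K) (b : K) (c : K) (d : K) e
    obtain ⟨y, h1, h3⟩ := h.qs4 _ _ _ _ e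
    rcases hK y with hy | hy
    · exact ⟨⟨y, hy⟩, h1, h3⟩
    · refine ⟨⟨y * S.neg, hy⟩, ?_, ?_⟩
      · show S.q a.1 b.1 = S.q a.1 (y * S.neg)
        rw [mul_comm y, q_shift h y (sy h (hK0 _ a.2))]
        exact h1
      · show S.q c.1 d.1 = S.q c.1 (y * S.neg)
        rw [mul_comm y, q_shift h y (sy h (hK0 _ c.2))]
        exact h3

include hnK hK in
lemma restr_part {X : Set (Subgroup S.G)} (hX : GPart S X) :
    GPart (restr S K) {B | ∃ A ∈ X, B = A.subgroupOf K} := by
  refine ⟨?_, ?_, ?_, ?_, ?_⟩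
  · rintro _ ⟨A, hA, rfl⟩
    exact (A.subgroupOf K).one_mem
  · rintro _ ⟨A, hA, rfl⟩ e
    apply hX.ne_top A hA
    have hKA : K ≤ A := Subgroup.subgroupOf_eq_top.1 e
    rw [eq_top_iff]
    intro y _
    rcases hK y with hy | hy
    · exact hKA hy
    · exact (A.mul_mem_cancel_right (hX.neg A hA)).1 (hKA hy)
  · intro x
    obtain ⟨A, hA, hx⟩ := hX.cover x.1
    exact ⟨_, ⟨A, hA, rfl⟩, hx⟩
  · rintro _ ⟨A, hA, rfl⟩ _ ⟨A', hA', rfl⟩ hne x hx hx'
    left
    rcases hX.inf A hA A' hA' (fun e => hne (by rw [e])) x.1 hx hx' with h1 | h1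
    · exact Subtype.ext h1
    · exact absurd (h1 ▸ x.2) hnK
  · rintro _ ⟨A, hA, rfl⟩ a haA ha1 _ b hab
    exact hX.orth A hA a.1 haA (fun e => ha1 (Subtype.ext e)) (fun e => hnK (e ▸ a.2)) b.1 hab

include h hnK hK hK0 in
theorem split_ext [Finite S.G] {X : Set (Subgroup S.G)} (hX : GPart S X) :
    ∃ T : QData, IsQuat T ∧ T.neg = 1 ∧ 2 * Nat.card T.G = Nat.card K ∧
      Iso (ext T) (restr S K) := by
  have hq := restr_quat h hK hK0
  have hf : Finite (restr S K).G := inferInstanceAs (Finite K)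
  obtain ⟨B, hB, hbi⟩ := exists_part hq (restr_part hnK hK hX) (Or.inl rfl)
  obtain ⟨g, hg⟩ : ∃ g : (restr S K).G, g ∉ B := by
    by_contra hc
    push Not at hc
    exact (restr_part hnK hK hX).ne_top B hB (eq_top_iff.2 fun x _ => hc x)
  obtain ⟨h1, -, h3, -⟩ := hbi g hg
  obtain ⟨K', h4, h5, h6⟩ := rigid_ext hq rfl h1 (fun e he => by
    rcases h3 e he with h7 | h7
    · exact Or.inl h7
    · right
      rw [h7]
      exact one_mul g)
  exact ⟨restr (restr S K) K', h5, rfl, h4, h6⟩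

include h hnK hK in
lemma card_split [Finite S.G] : 2 * Nat.card K = Nat.card S.G := by
  have := Nat.card_congr (phi h.exp2 K S.neg hnK hK).toEquiv
  rw [Nat.card_prod, card_C2] at this
  omega

include h hnK hK in
/-- `-1` in the radical -/
theorem iso_L11 (hr : ∀ y : S.G, S.q S.neg y = S.zero) : Iso (prod (restr S K) L11) S := by
  refine ⟨phi h.exp2 K S.neg hnK hK, ?_, ?_⟩
  · show ((1 : K) : S.G) * xp S.neg gen = S.neg
    rw [xp_gen, Subgroup.coe_one, one_mul]
  · have key1 : ∀ (a b : S.G) (α : C2), S.q (a * xp S.neg α) b = S.q a b := by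
      intro a b α
      rcases C2_cases α with rfl | rfl
      · rw [xp_one, mul_one]
      · rw [xp_gen, h.qs2, mul_comm a, q_shift h a (sy h (hr b)), h.qs2]
    have key : ∀ p r : K × C2, S.q ((p.1 : S.G) * xp S.neg p.2) ((r.1 : S.G) * xp S.neg r.2) =
        S.q p.1 r.1 := by
      intro p r
      rw [key1, h.qs2, key1, h.qs2]
    intro (p : K × C2) (r : K × C2) (p' : K × C2) (r' : K × C2)
    show _ ↔ S.q ((p.1 : S.G) * xp S.neg p.2) ((r.1 : S.G) * xp S.neg r.2) =
      S.q ((p'.1 : S.G) * xp S.neg p'.2) ((r'.1 : S.G) * xp S.neg r'.2)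
    rw [key, key]
    constructor
    · intro e
      exact congrArg Prod.fst e
    · intro e
      exact Prod.ext e rfl

end

section

variable {S : QData} (h : IsQuat S) {X : Set (Subgroup S.G)} (hX : GPart S X)
  (hnn : S.q S.neg S.neg ≠ S.zero)
  (hall : ∀ g : S.G, S.q S.neg g = S.zero ∨ S.q S.neg (S.neg * g) = S.zero)
  (hW : ∀ A ∈ X, ∃ w : S.G, S.q S.neg w = S.zero ∧ w ∉ A)

include h hX hnn hW in
/-- `q(-u,-v)` is not zero for `u, v` in `V(-1)` -/
lemma negneg {u v : S.G} (hu : S.q S.neg u = S.zero) (hv : S.q S.neg v = S.zero) :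
    S.q (S.neg * u) (S.neg * v) ≠ S.zero := by
  intro e
  have hnv : ∀ v : S.G, S.q S.neg v = S.zero → S.q S.neg (S.neg * v) ≠ S.zero := by
    intro v hv e
    exact hnn (pm h e hv (by simp only [mul_comm, mul_left_comm, mul_assoc, ec h.exp2, h.exp2, mul_one, one_mul]))
  have hu1 : u ≠ 1 := by
    rintro rfl
    rw [mul_one] at e
    exact hnv v hv e
  have hun : u ≠ S.neg := by
    rintro rfl
    exact hnn hu
  obtain ⟨A, hA, huA⟩ := hX.cover u
  have hnA := hX.neg A hA
  -- `q(u,v) = q(-1,-1)`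
  have e1 : S.q u v = S.q S.neg S.neg := by
    have h1 : S.q (S.neg * u) S.neg = S.q (S.neg * u) v := (h.qs3 _ _ _).2 e
    have h2 : S.q (S.neg * u) S.neg = S.q S.neg S.neg := by
      rw [h.qs2, mul_comm S.neg u, q_shift h S.neg hu]
    have h3 : S.q (S.neg * u) v = S.q u v := by
      rw [h.qs2, q_shift h u (sy h hv), h.qs2]
    rw [← h3, ← h1, h2]
  obtain ⟨t, ht, htA⟩ := hW A hA
  have hut : S.q S.neg (u * t) = S.zero := p_mul h hu ht
  have e2 : S.q (S.neg * (u * t)) S.neg = S.q S.neg S.neg := by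
    rw [h.qs2, mul_comm S.neg, q_shift h S.neg hut]
  obtain ⟨g, h1, -, h3⟩ := link h (e1.trans e2.symm)
  -- `v` is in `A`
  have hnu1 : S.neg * u ≠ 1 := fun hc => hun (eq_of_mul h _ _ hc).symm
  have hnun : S.neg * u ≠ S.neg := fun hc => hu1 (mul_eq_left.1 hc)
  have hvA : v ∈ A := (Subgroup.mul_mem_cancel_left A hnA).1
    (hX.orth A hA _ (A.mul_mem hnA huA) hnu1 hnun _ e)
  have hgA : g ∈ A := (Subgroup.mul_mem_cancel_left A hvA).1 (hX.orth A hA u huA hu1 hun _ h1)
  have h4 : u * (S.neg * (u * t)) = S.neg * t := by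
    simp only [mul_comm, mul_left_comm, mul_assoc, ec h.exp2, h.exp2, mul_one, one_mul]
  rw [h4] at h3
  have hntA : S.neg * t ∉ A := fun hc => htA ((Subgroup.mul_mem_cancel_left A hnA).1 hc)
  obtain ⟨A', hA', hntA'⟩ := hX.cover (S.neg * t)
  have hAA' : A ≠ A' := by
    rintro rfl
    exact hntA hntA'
  have hgA' : g ∈ A' := hX.orth A' hA' _ hntA' (fun hc => hntA (by rw [hc]; exact A.one_mem))
    (fun hc => hntA (by rw [hc]; exact hnA)) g (sy h h3)
  rcases hX.inf A hA A' hA' hAA' g hgA hgA' with h5 | h5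
  · rw [h5, mul_one, e1] at h1
    exact hnn h1
  · rw [h5] at h1
    have h6 : S.q u v = S.zero :=
      pm h h1 (sy h hu) (by simp only [mul_comm, mul_left_comm, mul_assoc, ec h.exp2, h.exp2, mul_one, one_mul])
    rw [e1] at h6
    exact hnn h6

include h hX hnn hall hW in
lemma mem_of_neg {u g : S.G} (hu : S.q S.neg u = S.zero) (hg : S.q (S.neg * u) g = S.zero) :
    S.q S.neg g = S.zero := by
  rcases hall g with h1 | h1
  · exact h1
  · exfalso
    refine negneg h hX hnn hW hu h1 ?_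
    rw [ec h.exp2]
    exact hg

include h hX hnn hall hW in
/-- the quaternions `q(-k,-k')` and `q(l,l')` are different for `k, k', l, l'` in `V(-1)` -/
lemma ne_neg {k k' l l' : S.G} (hk : S.q S.neg k = S.zero) (hk' : S.q S.neg k' = S.zero)
    (hl : S.q S.neg l = S.zero) : S.q (S.neg * k) (S.neg * k') ≠ S.q l l' := by
  intro e
  obtain ⟨g, h1, -, h3⟩ := link h e
  have h4 := mem_of_neg h hX hnn hall hW hk h1
  have h5 : S.neg * k * l = S.neg * (k * l) := mul_assoc _ _ _
  rw [h5] at h3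
  have h6 := mem_of_neg h hX hnn hall hW (p_mul h hk hl) (sy h h3)
  apply hnn
  have h7 : S.q S.neg (k' * g) = S.zero := p_mul h hk' h6
  exact pm h h4 h7 (by simp only [mul_comm, mul_left_comm, mul_assoc, ec h.exp2, h.exp2, mul_one, one_mul])

include h hX hnn hall hW in
lemma eq_neg {k k' l l' : S.G} (hk : S.q S.neg k = S.zero) (hk' : S.q S.neg k' = S.zero)
    (hl : S.q S.neg l = S.zero) (hl' : S.q S.neg l' = S.zero) :
    S.q (S.neg * k) (S.neg * k') = S.q (S.neg * l) (S.neg * l') ↔ S.q k k' = S.q l l' := by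
  -- for `k, g` in `V(-1)`
  have sh : ∀ k g : S.G, S.q S.neg g = S.zero → S.q (S.neg * k) g = S.q k g := by
    intro k g hg
    rw [h.qs2, q_shift h k (sy h hg), h.qs2]
  constructor
  · intro e
    obtain ⟨g, h1, h2, h3⟩ := link h e
    have h4 := mem_of_neg h hX hnn hall hW hk h1
    have h5 := mem_of_neg h hX hnn hall hW hl h2
    rw [sh k _ h4] at h1
    rw [sh l _ h5] at h2
    -- `q(k, -g) = q(k, k')`
    have e1 : S.q k (S.neg * g) = S.q k k' := by
      rw [h.qs3]
      exact pm h h1 (q_one h k) (by simp only [mul_comm, mul_left_comm, mul_assoc, ec h.exp2, h.exp2, mul_one, one_mul])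
    have e2 : S.q l (S.neg * g) = S.q l l' := by
      rw [h.qs3]
      exact pm h h2 (q_one h l) (by simp only [mul_comm, mul_left_comm, mul_assoc, ec h.exp2, h.exp2, mul_one, one_mul])
    have h6 : S.neg * k * (S.neg * l) = k * l := by
      simp only [mul_comm, mul_left_comm, mul_assoc, ec h.exp2, h.exp2, mul_one, one_mul]
    rw [h6] at h3
    have h7 : S.q (k * l) S.neg = S.zero := sy h (p_mul h hk hl)
    have e3 : S.q (S.neg * g) k = S.q (S.neg * g) l := by
      rw [h.qs3]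
      exact sy h (p_mul h h7 (sy h h3))
    rw [← e1, ← e2, h.qs2 k, h.qs2 l, e3]
  · intro e
    obtain ⟨g, hg0, h1, h2, h3⟩ : ∃ g : S.G, S.q S.neg g = S.zero ∧ S.q k (k' * g) = S.zero ∧
        S.q l (l' * g) = S.zero ∧ S.q g (k * l) = S.zero := by
      obtain ⟨g, h1, h2, h3⟩ := link h e
      rcases hall g with hg | hg
      · exact ⟨g, hg, h1, h2, h3⟩
      · refine ⟨S.neg * g, hg, ?_, ?_, ?_⟩
        · exact pm h h1 (sy h hk) (by simp only [mul_comm, mul_left_comm, mul_assoc, ec h.exp2, h.exp2, mul_one, one_mul])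
        · exact pm h h2 (sy h hl) (by simp only [mul_comm, mul_left_comm, mul_assoc, ec h.exp2, h.exp2, mul_one, one_mul])
        · exact sy h (p_mul h (sy h (p_mul h hk hl)) (sy h h3))
    have e1 : S.q (S.neg * k) (S.neg * g) = S.q (S.neg * k) (S.neg * k') := by
      rw [h.qs3]
      have h4 : S.q (S.neg * k) (k' * g) = S.zero := by
        rw [sh k _ (p_mul h hk' hg0)]
        exact h1
      exact pm h h4 (q_one h _) (by simp only [mul_comm, mul_left_comm, mul_assoc, ec h.exp2, h.exp2, mul_one, one_mul])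
    have e2 : S.q (S.neg * l) (S.neg * g) = S.q (S.neg * l) (S.neg * l') := by
      rw [h.qs3]
      have h4 : S.q (S.neg * l) (l' * g) = S.zero := by
        rw [sh l _ (p_mul h hl' hg0)]
        exact h2
      exact pm h h4 (q_one h _) (by simp only [mul_comm, mul_left_comm, mul_assoc, ec h.exp2, h.exp2, mul_one, one_mul])
    have e3 : S.q (S.neg * g) (S.neg * k) = S.q (S.neg * g) (S.neg * l) := by
      rw [h.qs3]
      have h6 : S.neg * k * (S.neg * l) = k * l := by
        simp only [mul_comm, mul_left_comm, mul_assoc, ec h.exp2, h.exp2, mul_one, one_mul]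
      rw [h6]
      exact sy h (p_mul h (sy h (p_mul h hk hl)) (sy h h3))
    rw [← e1, ← e2, h.qs2 (S.neg * k), h.qs2 (S.neg * l), e3]

include h hX hnn hall hW in
/-- `q(-1,-1)` not zero -/
theorem iso_L1 {K : Subgroup S.G} (hnK : S.neg ∉ K) (hK : ∀ y : S.G, y ∈ K ∨ y * S.neg ∈ K)
    (hK0 : ∀ y ∈ K, S.q S.neg y = S.zero) : Iso (prod (restr S K) L1) S := by
  refine ⟨phi h.exp2 K S.neg hnK hK, ?_, ?_⟩
  · show ((1 : K) : S.G) * xp S.neg gen = S.neg
    rw [xp_gen, Subgroup.coe_one, one_mul]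
  · have key : ∀ p r : K × C2, ((p.2 = gen ∧ r.2 = gen) ∧
        S.q ((p.1 : S.G) * xp S.neg p.2) ((r.1 : S.G) * xp S.neg r.2) =
          S.q (S.neg * p.1) (S.neg * r.1)) ∨ (¬ (p.2 = gen ∧ r.2 = gen) ∧
        S.q ((p.1 : S.G) * xp S.neg p.2) ((r.1 : S.G) * xp S.neg r.2) = S.q p.1 r.1) := by
      rintro ⟨a, α⟩ ⟨b, β⟩
      rcases C2_cases α with rfl | rfl
      · right
        refine ⟨fun hc => gen_ne hc.1.symm, ?_⟩
        rcases C2_cases β with rfl | rfl
        · show S.q ((a : S.G) * xp S.neg 1) ((b : S.G) * xp S.neg 1) = S.q a b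
          rw [xp_one, mul_one, mul_one]
        · show S.q ((a : S.G) * xp S.neg 1) ((b : S.G) * xp S.neg gen) = S.q a b
          rw [xp_one, xp_gen, mul_one, mul_comm (b : S.G), q_shift h (b : S.G) (sy h (hK0 _ a.2))]
      · rcases C2_cases β with rfl | rfl
        · right
          refine ⟨fun hc => gen_ne hc.2.symm, ?_⟩
          show S.q ((a : S.G) * xp S.neg gen) ((b : S.G) * xp S.neg 1) = S.q a b
          rw [xp_one, xp_gen, mul_one, h.qs2, mul_comm (a : S.G),
            q_shift h (a : S.G) (sy h (hK0 _ b.2)), h.qs2]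
        · left
          refine ⟨⟨rfl, rfl⟩, ?_⟩
          show S.q ((a : S.G) * xp S.neg gen) ((b : S.G) * xp S.neg gen) = _
          rw [xp_gen, mul_comm (a : S.G), mul_comm (b : S.G)]
    intro (p : K × C2) (r : K × C2) (p' : K × C2) (r' : K × C2)
    show (S.q p.1 r.1, decide (p.2 = gen ∧ r.2 = gen)) =
      (S.q p'.1 r'.1, decide (p'.2 = gen ∧ r'.2 = gen)) ↔
      S.q ((p.1 : S.G) * xp S.neg p.2) ((r.1 : S.G) * xp S.neg r.2) =
      S.q ((p'.1 : S.G) * xp S.neg p'.2) ((r'.1 : S.G) * xp S.neg r'.2)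
    rw [Prod.mk_inj]
    rcases key p r with ⟨h1, e1⟩ | ⟨h1, e1⟩ <;> rcases key p' r' with ⟨h2, e2⟩ | ⟨h2, e2⟩
    · rw [e1, e2, eq_neg h hX hnn hall hW (hK0 _ p.1.2) (hK0 _ r.1.2) (hK0 _ p'.1.2)
        (hK0 _ r'.1.2)]
      simp only [h1, h2, and_self, decide_true, and_true]
    · rw [e1, e2]
      constructor
      · rintro ⟨-, e⟩
        exact absurd ((decide_eq_decide.1 e).1 h1) h2
      · intro e
        exact absurd e (ne_neg h hX hnn hall hW (hK0 _ p.1.2) (hK0 _ r.1.2) (hK0 _ p'.1.2))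
    · rw [e1, e2]
      constructor
      · rintro ⟨-, e⟩
        exact absurd ((decide_eq_decide.1 e).2 h2) h1
      · intro e
        exact absurd e.symm (ne_neg h hX hnn hall hW (hK0 _ p'.1.2) (hK0 _ r'.1.2) (hK0 _ p.1.2))
    · rw [e1, e2]
      simp only [h1, h2, decide_false, and_true]

end

/-- isomorphic first factors -/
lemma prod_iso {A B L : QData} (hi : Iso A B) : Iso (prod A L) (prod B L) := by
  obtain ⟨φ, hn, hq⟩ := hi
  refine ⟨MulEquiv.prodCongr φ (MulEquiv.refl _), ?_, ?_⟩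
  · exact Prod.ext hn rfl
  · rintro ⟨a, a'⟩ ⟨b, b'⟩ ⟨c, c'⟩ ⟨d, d'⟩
    show (A.q a b, L.q a' b') = (A.q c d, L.q c' d') ↔
      (B.q (φ a) (φ b), L.q a' b') = (B.q (φ c) (φ d), L.q c' d')
    rw [Prod.mk_inj, Prod.mk_inj, hq]

/-- finite structures with a partition modulo `{1, -1}` -/
theorem structure_of_part {S : QData} (h : IsQuat S) [Finite S.G] {X : Set (Subgroup S.G)}
    (hX : GPart S X) :
    (∃ T : QData, IsQuat T ∧ Finite T.G ∧ 2 * Nat.card T.G = Nat.card S.G ∧ Iso (ext T) S) ∨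
    ∃ T : QData, IsQuat T ∧ Finite T.G ∧ T.neg = 1 ∧ 4 * Nat.card T.G = Nat.card S.G ∧
      (Iso (prod (ext T) L11) S ∨ Iso (prod (ext T) L1) S) := by
  by_cases hb : ∃ g : S.G, Bi S g
  · left
    obtain ⟨g, hg⟩ := hb
    obtain ⟨T, h1, h2, h3, h4, -⟩ := bi_ext h hg
    exact ⟨T, h1, h2, h3, h4⟩
  right
  by_cases hin : NegIn S X
  · exfalso
    obtain ⟨A, hA, hbi⟩ := exists_part h hX hin
    apply hX.ne_top A hA
    rw [eq_top_iff]
    intro g _
    by_contra hg
    exact hb ⟨g, hbi g hg⟩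
  have hall : ∀ g : S.G, S.q S.neg g = S.zero ∨ S.q S.neg (S.neg * g) = S.zero := by
    intro g
    by_contra hc
    rw [not_or] at hc
    exact hb ⟨g, bi_outside h hX hin g hc.1 hc.2⟩
  have hin' := hin
  unfold NegIn at hin'
  push Not at hin'
  obtain ⟨hn, hW⟩ := hin'
  by_cases hnn : S.q S.neg S.neg = S.zero
  · have hr : ∀ y : S.G, S.q S.neg y = S.zero := by
      intro y
      rcases hall y with h1 | h1
      · exact h1
      · exact pm h h1 hnn (by simp only [mul_comm, mul_left_comm, mul_assoc, ec h.exp2, h.exp2, mul_one, one_mul])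
    obtain ⟨K, -, hnK, hK⟩ := split h.exp2 (⊥ : Subgroup S.G) S.neg (by
      rw [Subgroup.mem_bot]
      exact hn)
    obtain ⟨T, h1, h2, h3, h4⟩ := split_ext h hnK hK (fun y _ => hr y) hX
    have h5 := card_split h hnK hK
    have hpos : 0 < Nat.card S.G := Nat.card_pos
    exact ⟨T, h1, Nat.finite_of_card_ne_zero (by omega), h2, by omega,
      Or.inl (iso_trans (prod_iso h4) (iso_L11 h hnK hK hr))⟩
  · have hnK : S.neg ∉ D h S.neg := hnn
    have hK : ∀ y : S.G, y ∈ D h S.neg ∨ y * S.neg ∈ D h S.neg := by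
      intro y
      rw [mul_comm y]
      exact hall y
    have hK0 : ∀ y ∈ D h S.neg, S.q S.neg y = S.zero := fun y hy => hy
    obtain ⟨T, h1, h2, h3, h4⟩ := split_ext h hnK hK hK0 hX
    have h5 := card_split h hnK hK
    have hpos : 0 < Nat.card S.G := Nat.card_pos
    exact ⟨T, h1, Nat.finite_of_card_ne_zero (by omega), h2, by omega,
      Or.inr (iso_trans (prod_iso h4) (iso_L1 h hX hnn hall hW hnK hK hK0))⟩

end Pool.Agent.U499.EPT.Gen
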