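import Mathlib
import Pool.Agent.U499.EPT.Spl

set_option autoImplicit false
set_option linter.unusedSimpArgs false

/-! Partitions of quaternionic structures modulo `{1, -1}`: the converse. -/

namespace Pool.Agent.U499.EPT.Gen

open Pool.Agent.H315R3.ETC Pool.Agent.Y920.ETC Pool.Agent.U499.ETV

section

variable {S : QData} (h : IsQuat S)

/-- the subgroup `{1, -1, g, -g}` -/
def pmg (g : S.G) : Subgroup S.G where
  carrier := {x | x = 1 ∨ x = S.neg ∨ x = g ∨ x = S.neg * g}
  one_mem' := Or.inl rfl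
  mul_mem' := by
    rintro a b (rfl | rfl | rfl | rfl) (rfl | rfl | rfl | rfl) <;>
      simp only [Set.mem_ofPred_eq, mul_comm, mul_left_comm, mul_assoc, ec h.exp2, h.exp2, mul_one, one_mul,
        true_or, or_true]
  inv_mem' := by
    intro x hx
    have : x⁻¹ = x := by
      rw [inv_eq_iff_mul_eq_one]
      exact h.exp2 x
    rw [this]
    exact hx

lemma mem_pmg {g x : S.G} : x ∈ pmg h g ↔ x = 1 ∨ x = S.neg ∨ x = g ∨ x = S.neg * g := Iff.rfl

/-- the parts given by a subgroup `B` -/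
def gparts (B : Subgroup S.G) : Set (Subgroup S.G) :=
  {K | K = B ∨ ∃ g : S.G, g ∉ B ∧ K = pmg h g}

lemma pmg_eq {B : Subgroup S.G} (hneg : S.neg ∈ B) {g x : S.G} (hx : x ∈ pmg h g)
    (hxB : x ∉ B) : pmg h x = pmg h g := by
  have h1 : x = g ∨ x = S.neg * g := by
    rcases hx with rfl | rfl | h1 | h1
    · exact absurd B.one_mem hxB
    · exact absurd hneg hxB
    · exact Or.inl h1
    · exact Or.inr h1
  rcases h1 with rfl | rfl
  · rfl
  · ext y
    rw [mem_pmg, mem_pmg, ec h.exp2]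
    tauto

theorem gpart_of_shape (B : Subgroup S.G) (hneg : S.neg ∈ B) (hB : B ≠ ⊤)
    (hout : ∀ g : S.G, g ∉ B → ∀ e : S.G, S.q g e = S.zero →
      e = 1 ∨ e = S.neg ∨ e = g ∨ e = S.neg * g)
    (hc : ∀ g : S.G, ∃ x : S.G, x ∉ pmg h g) : GPart S (gparts h B) := by
  refine ⟨?_, ?_, ?_, ?_, ?_⟩
  · rintro K (rfl | ⟨g, hg, rfl⟩)
    · exact hneg
    · exact Or.inr (Or.inl rfl)
  · rintro K (rfl | ⟨g, hg, rfl⟩) e
    · exact hB e
    · obtain ⟨x, hx⟩ := hc g
      exact hx (by rw [e]; exact Subgroup.mem_top _)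
  · intro x
    by_cases hx : x ∈ B
    · exact ⟨B, Or.inl rfl, hx⟩
    · exact ⟨_, Or.inr ⟨x, hx, rfl⟩, Or.inr (Or.inr (Or.inl rfl))⟩
  · intro K hK K' hK' hne x hx hx'
    by_cases hxB : x ∈ B
    · have key : ∀ g : S.G, g ∉ B → x ∈ pmg h g → x = 1 ∨ x = S.neg := by
        rintro g hg (h1 | h1 | h1 | h1)
        · exact Or.inl h1
        · exact Or.inr h1
        · exact absurd (h1 ▸ hxB) hg
        · exact absurd ((B.mul_mem_cancel_left hneg).1 (h1 ▸ hxB)) hg
      rcases hK with rfl | ⟨g, hg, rfl⟩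
      · rcases hK' with rfl | ⟨g', hg', rfl⟩
        · exact absurd rfl hne
        · exact key g' hg' hx'
      · exact key g hg hx
    · exfalso
      rcases hK with rfl | ⟨g, hg, rfl⟩
      · exact hxB hx
      rcases hK' with rfl | ⟨g', hg', rfl⟩
      · exact hxB hx'
      exact hne ((pmg_eq h hneg hx hxB).symm.trans (pmg_eq h hneg hx' hxB))
  · rintro K (rfl | ⟨g, hg, rfl⟩) a haK ha1 han b hab
    · by_contra hb
      rcases hout b hb a (sy h hab) with h1 | h1 | h1 | h1
      · exact ha1 h1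
      · exact han h1
      · exact hb (h1 ▸ haK)
      · exact hb ((K.mul_mem_cancel_left hneg).1 (h1 ▸ haK))
    · have haB : a ∉ B := by
        intro haB
        rcases haK with h1 | h1 | h1 | h1
        · exact ha1 h1
        · exact han h1
        · exact hg (h1 ▸ haB)
        · exact hg ((B.mul_mem_cancel_left hneg).1 (h1 ▸ haB))
      rw [← pmg_eq h hneg haK haB]
      exact hout a haB b hab

/-- enough elements -/
lemma exists_notMem [Finite S.G] (hc : 4 ≤ (Subgroup.zpowers S.neg).index) (g : S.G) :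
    ∃ x : S.G, x ∉ pmg h g := by
  classical
  by_contra hcon
  push Not at hcon
  have hf : Fintype S.G := Fintype.ofFinite _
  have h1 := Subgroup.card_mul_index (Subgroup.zpowers S.neg)
  by_cases hn : S.neg = 1
  · have h2 : Nat.card S.G ≤ 2 := by
      rw [Nat.card_eq_fintype_card, ← Finset.card_univ]
      have h3 : (Finset.univ : Finset S.G) ⊆ {1, g} := by
        intro x _
        rw [Finset.mem_insert, Finset.mem_singleton]
        rcases hcon x with h4 | h4 | h4 | h4
        · exact Or.inl h4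
        · exact Or.inl (h4.trans hn)
        · exact Or.inr h4
        · right
          rw [h4, hn, one_mul]
      exact (Finset.card_le_card h3).trans Finset.card_le_two
    have h4 : 0 < Nat.card (Subgroup.zpowers S.neg) := Nat.card_pos
    nlinarith
  · have h2 : Nat.card S.G ≤ 4 := by
      rw [Nat.card_eq_fintype_card, ← Finset.card_univ]
      have h3 : (Finset.univ : Finset S.G) ⊆ {1, S.neg, g, S.neg * g} := by
        intro x _
        rw [Finset.mem_insert, Finset.mem_insert, Finset.mem_insert, Finset.mem_singleton]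
        exact hcon x
      exact (Finset.card_le_card h3).trans Finset.card_le_four
    have h4 : 1 < Nat.card (Subgroup.zpowers S.neg) := by
      rw [Nat.card_zpowers]
      have h5 : orderOf S.neg ≠ 1 := by
        rw [Ne, orderOf_eq_one_iff]
        exact hn
      have h6 : 0 < orderOf S.neg := orderOf_pos _
      omega
    nlinarith

include h in
lemma iso_zero {M : QData} {φ : M.G ≃* S.G}
    (hq : ∀ a b c d : M.G, M.q a b = M.q c d ↔ S.q (φ a) (φ b) = S.q (φ c) (φ d)) (u v : M.G) :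
    S.q (φ u) (φ v) = S.zero ↔ M.q u v = M.q 1 1 := by
  rw [hq, map_one, q_one h]

/-- the second component of the symbol of an extension -/
lemma ext_snd {T : QData} (hT : IsQuat T) {a b : T.G} {β : C2}
    (e : ((ext T).q (a, gen) (b, β)).2 = ((ext T).q (1, 1) (1, 1)).2) :
    (b = 1 ∧ β = 1) ∨ (b = T.neg * a ∧ β = gen) := by
  have e' : pw (pw T.neg gen) β * pw a β * pw b gen = pw (pw T.neg 1) 1 * pw (1 : T.G) 1 * pw 1 1 := e
  rcases C2_cases β with rfl | rfl
  · left
    simp [pw, gen_ne] at e'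
    exact ⟨e', rfl⟩
  · right
    simp [pw, gen_ne] at e'
    exact ⟨(eq_of_mul hT _ _ e').symm, rfl⟩

include h in
/-- group extensions -/
theorem shape_ext {T : QData} (hT : IsQuat T) (hi : Iso (ext T) S) :
    ∃ B : Subgroup S.G, S.neg ∈ B ∧ B ≠ ⊤ ∧ ∀ g : S.G, g ∉ B → ∀ e : S.G, S.q g e = S.zero →
      e = 1 ∨ e = S.neg ∨ e = g ∨ e = S.neg * g := by
  obtain ⟨φ, hn, hq⟩ := hi
  change (T.G × C2) ≃* S.G at φ
  have hn' : φ (T.neg, 1) = S.neg := hn
  have hmem : ∀ p : T.G × C2, φ p ∈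
      (((MonoidHom.snd T.G C2).comp φ.symm.toMonoidHom).ker : Subgroup S.G) ↔ p.2 = 1 := by
    intro p
    rw [MonoidHom.mem_ker]
    show (φ.symm (φ p)).2 = 1 ↔ _
    rw [MulEquiv.symm_apply_apply]
  refine ⟨((MonoidHom.snd T.G C2).comp φ.symm.toMonoidHom).ker, ?_, ?_, ?_⟩
  · rw [← hn', hmem]
  · intro e
    have h1 : φ (1, gen) ∈ (((MonoidHom.snd T.G C2).comp φ.symm.toMonoidHom).ker : Subgroup S.G) := by
      rw [e]
      exact Subgroup.mem_top _
    rw [hmem] at h1
    exact gen_ne h1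
  · intro g hg e he
    obtain ⟨⟨a, α⟩, rfl⟩ := φ.surjective g
    obtain ⟨⟨b, β⟩, rfl⟩ := φ.surjective e
    rw [hmem] at hg
    have hα : α = gen := (C2_cases α).resolve_left hg
    subst hα
    have he' := (iso_zero (M := ext T) h hq _ _).1 he
    rcases ext_snd hT (congrArg Prod.snd he') with ⟨rfl, rfl⟩ | ⟨rfl, rfl⟩
    · left
      exact map_one φ
    · right; right; right
      rw [← hn', ← map_mul]
      apply congrArg φ
      exact Prod.ext rfl (one_mul _).symm

include h in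
/-- products of a group extension and a structure of order two -/
theorem shape_prod {T : QData} (hT : IsQuat T) (hTn : T.neg = 1) {Q' : Type} {q' : C2 → C2 → Q'}
    {z' : Q'} (hi : Iso (prod (ext T) ⟨C2, Q', gen, q', z'⟩) S) :
    ∃ B : Subgroup S.G, S.neg ∈ B ∧ B ≠ ⊤ ∧ ∀ g : S.G, g ∉ B → ∀ e : S.G, S.q g e = S.zero →
      e = 1 ∨ e = S.neg ∨ e = g ∨ e = S.neg * g := by
  obtain ⟨φ, hn, hq⟩ := hi
  change ((T.G × C2) × C2) ≃* S.G at φ
  have hn' : φ ((1, 1), gen) = S.neg := by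
    rw [← hn, ← hTn]
    rfl
  have hmem : ∀ p : (T.G × C2) × C2, φ p ∈ ((((MonoidHom.snd T.G C2).comp
      (MonoidHom.fst (T.G × C2) C2)).comp φ.symm.toMonoidHom).ker : Subgroup S.G) ↔
      p.1.2 = 1 := by
    intro p
    rw [MonoidHom.mem_ker]
    show (φ.symm (φ p)).1.2 = 1 ↔ _
    rw [MulEquiv.symm_apply_apply]
  refine ⟨(((MonoidHom.snd T.G C2).comp
      (MonoidHom.fst (T.G × C2) C2)).comp φ.symm.toMonoidHom).ker, ?_, ?_, ?_⟩
  · rw [← hn', hmem]
  · intro e
    have h1 : φ ((1, gen), 1) ∈ ((((MonoidHom.snd T.G C2).comp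
        (MonoidHom.fst (T.G × C2) C2)).comp φ.symm.toMonoidHom).ker : Subgroup S.G) := by
      rw [e]
      exact Subgroup.mem_top _
    rw [hmem] at h1
    exact gen_ne h1
  · intro g hg e he
    obtain ⟨⟨⟨a, α⟩, γ⟩, rfl⟩ := φ.surjective g
    obtain ⟨⟨⟨b, β⟩, δ⟩, rfl⟩ := φ.surjective e
    rw [hmem] at hg
    have hα : α = gen := (C2_cases α).resolve_left hg
    subst hα
    have he' := (iso_zero (M := prod (ext T) ⟨C2, Q', gen, q', z'⟩) h hq _ _).1 he
    have h1 : ((ext T).q (a, gen) (b, β)).2 = ((ext T).q (1, 1) (1, 1)).2 :=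
      congrArg (fun z => z.1.2) he'
    have key : ∀ (x : T.G × C2), φ (x, gen) = S.neg * φ (x, 1) := by
      intro x
      rw [← hn', ← map_mul]
      apply congrArg φ
      exact Prod.ext (one_mul _).symm (mul_one _).symm
    have key' : ∀ (x : T.G × C2), φ (x, 1) = S.neg * φ (x, gen) := by
      intro x
      rw [key, ec h.exp2]
    have key1 : φ ((1, 1), 1) = 1 := map_one φ
    rcases ext_snd hT h1 with ⟨rfl, rfl⟩ | ⟨rfl, rfl⟩
    · rcases C2_cases δ with rfl | rfl
      · exact Or.inl key1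
      · exact Or.inr (Or.inl hn')
    · rw [hTn, one_mul]
      rcases C2_cases δ with rfl | rfl
      · rcases C2_cases γ with rfl | rfl
        · exact Or.inr (Or.inr (Or.inl rfl))
        · exact Or.inr (Or.inr (Or.inr (key' _)))
      · rcases C2_cases γ with rfl | rfl
        · exact Or.inr (Or.inr (Or.inr (key _)))
        · exact Or.inr (Or.inr (Or.inl rfl))

include h in
/-- the characterisation -/
theorem tfae_part [Finite S.G] (hc : 4 ≤ (Subgroup.zpowers S.neg).index) : List.TFAE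
    [∃ X : Set (Subgroup S.G), GPart S X,
     ∃ B : Subgroup S.G, S.neg ∈ B ∧ B ≠ ⊤ ∧ ∀ g : S.G, g ∉ B → ∀ e : S.G, S.q g e = S.zero →
      e = 1 ∨ e = S.neg ∨ e = g ∨ e = S.neg * g,
     (∃ T : QData, IsQuat T ∧ Iso (ext T) S) ∨ ∃ T : QData, IsQuat T ∧ T.neg = 1 ∧
      (Iso (prod (ext T) L11) S ∨ Iso (prod (ext T) L1) S)] := by
  tfae_have 1 → 3 := by
    rintro ⟨X, hX⟩
    rcases structure_of_part h hX with ⟨T, h1, -, -, h2⟩ | ⟨T, h1, -, h2, -, h3⟩
    · exact Or.inl ⟨T, h1, h2⟩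
    · exact Or.inr ⟨T, h1, h2, h3⟩
  tfae_have 3 → 2 := by
    rintro (⟨T, h1, h2⟩ | ⟨T, h1, h2, h3 | h3⟩)
    · exact shape_ext h h1 h2
    · exact shape_prod h h1 h2 h3
    · exact shape_prod h h1 h2 h3
  tfae_have 2 → 1 := by
    rintro ⟨B, h1, h2, h3⟩
    exact ⟨_, gpart_of_shape h B h1 h2 h3 (exists_notMem h hc)⟩
  tfae_finish

end

end Pool.Agent.U499.EPT.Gen
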