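import Mathlib
import Pool.Agent.U499.EPT.Conv
import Pool.Agent.U499.EPT.Part

set_option autoImplicit false
set_option linter.unusedSimpArgs false

/-! Partitions of quaternionic structures modulo `{1, -1}` and the elementary type conjecture. -/

namespace Pool.Agent.U499.EPT.Gen

open Pool.Agent.H315R3.ETC Pool.Agent.Y920.ETC Pool.Agent.U499.ETV Pool.Agent.TH673.VG

/-- structures with at most sixteen elements are of elementary type -/
theorem elem16 {S : QData} (h : IsQuat S) [Finite S.G] (hc : Nat.card S.G ≤ 16) : Elem S := by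
  refine elem_of_step h fun H hH _ => ?_
  by_cases hi : H.index < 8
  · exact stepTwo_of_step (step_of_index h H hH hi)
  have h1 := Subgroup.card_mul_index H
  have h2 : Nat.card H ≤ 2 := by
    by_contra hcon
    nlinarith
  obtain ⟨g, hg, hgH⟩ : ∃ g ∈ H, ∀ k ∈ H, k = 1 ∨ k = g := by
    by_cases hex : ∃ g ∈ H, g ≠ 1
    · obtain ⟨g, hg, hg1⟩ := hex
      refine ⟨g, hg, fun k hk => ?_⟩
      have h3 : Subgroup.zpowers g = H := by
        apply Subgroup.eq_of_le_of_card_ge
        · rw [Subgroup.zpowers_le]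
          exact hg
        · rw [Nat.card_zpowers, orderOf_eq_prime (p := 2) (by rw [pow_two]; exact h.exp2 g) hg1]
          exact h2
      rw [← h3] at hk
      exact mem_zp h hk
    · push Not at hex
      exact ⟨1, H.one_mem, fun k hk => Or.inl (hex k hk)⟩
  obtain ⟨a, ha⟩ : ∃ a : S.G, a ∉ H := by
    by_contra hcon
    push Not at hcon
    exact hH (eq_top_iff.2 fun x _ => hcon x)
  refine ⟨a, ha, g, hg, fun k hk x hx => ?_⟩
  rcases hgH k hk with rfl | rfl
  · rw [mul_one] at hx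
    exact Or.inl ⟨x, 1, Or.inl hx, H.one_mem, mul_one x⟩
  · exact Or.inl ⟨x, 1, Or.inr hx, H.one_mem, mul_one x⟩

lemma elem_iter {S : QData} (hS : Elem S) (k : ℕ) : Elem (ext^[k] S) := by
  induction k with
  | zero => exact hS
  | succ k ih =>
    rw [Function.iterate_succ_apply']
    exact Elem.ext _ ih

section

variable {S : QData} (h : IsQuat S) {X : Set (Subgroup S.G)} (hX : GPart S X)

include h hX in
theorem elem_of_negin [Finite S.G] (hin : NegIn S X) {N : ℕ}
    (hN : ∀ T : QData, IsQuat T → Finite T.G → Nat.card T.G ≤ N → Elem T)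
    (hXN : ∀ K ∈ X, Nat.card K ≤ N) : Elem S := by
  obtain ⟨A, hA, hbi⟩ := exists_part h hX hin
  have hneg : S.neg ∈ A := hX.neg A hA
  obtain ⟨k, -, hk2⟩ := chain _ S h inferInstance le_rfl A hneg hbi
  exact Elem.iso _ _ (elem_iter (hN _ (isQuat_restrN h A hneg hbi).1
    (inferInstanceAs (Finite A)) (hXN A hA)) k) hk2

include h hX in
theorem split_iso [Finite S.G] (hin : ¬ NegIn S X)
    (hall : ∀ g : S.G, S.q S.neg g = S.zero ∨ S.q S.neg (S.neg * g) = S.zero) :
    ∃ K : Subgroup S.G, S.neg ∉ K ∧ (∀ y : S.G, y ∈ K ∨ y * S.neg ∈ K) ∧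
      (∀ y ∈ K, S.q S.neg y = S.zero) ∧
      (Iso (prod (restr S K) L11) S ∨ Iso (prod (restr S K) L1) S) := by
  have hin' := hin
  unfold NegIn at hin'
  push Not at hin'
  obtain ⟨hn, hW⟩ := hin'
  by_cases hnn : S.q S.neg S.neg = S.zero
  · have hr : ∀ y : S.G, S.q S.neg y = S.zero := by
      intro y
      rcases hall y with h1 | h1
      · exact h1
      · exact pm h h1 hnn (by simp only [mul_comm, mul_left_comm, mul_assoc, ec h.exp2, h.exp2, mul_one, one_mul])
    obtain ⟨K, -, hnK, hK⟩ := split h.exp2 (⊥ : Subgroup S.G) S.neg (by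
      rw [Subgroup.mem_bot]
      exact hn)
    exact ⟨K, hnK, hK, fun y _ => hr y, Or.inl (iso_L11 h hnK hK hr)⟩
  · have hnK : S.neg ∉ D h S.neg := hnn
    have hK : ∀ y : S.G, y ∈ D h S.neg ∨ y * S.neg ∈ D h S.neg := by
      intro y
      rw [mul_comm y]
      exact hall y
    have hK0 : ∀ y ∈ D h S.neg, S.q S.neg y = S.zero := fun y hy => hy
    exact ⟨D h S.neg, hnK, hK, hK0, Or.inr (iso_L1 h hX hnn hall hW hnK hK hK0)⟩

/-- the restriction of a partition -/
lemma restrN_part (hX : GPart S X) (W : Subgroup S.G) (hW : S.neg ∈ W)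
    (hWX : ∀ A ∈ X, ¬ W ≤ A) :
    GPart (restrN S W hW) {B | ∃ A ∈ X, B = A.subgroupOf W} := by
  refine ⟨?_, ?_, ?_, ?_, ?_⟩
  · rintro _ ⟨A, hA, rfl⟩
    exact hX.neg A hA
  · rintro _ ⟨A, hA, rfl⟩ e
    exact hWX A hA (Subgroup.subgroupOf_eq_top.1 e)
  · intro x
    obtain ⟨A, hA, hx⟩ := hX.cover x.1
    exact ⟨_, ⟨A, hA, rfl⟩, hx⟩
  · rintro _ ⟨A, hA, rfl⟩ _ ⟨A', hA', rfl⟩ hne x hx hx'
    rcases hX.inf A hA A' hA' (fun e => hne (by rw [e])) x.1 hx hx' with h1 | h1
    · exact Or.inl (Subtype.ext h1)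
    · exact Or.inr (Subtype.ext h1)
  · rintro _ ⟨A, hA, rfl⟩ a haA ha1 han b hab
    exact hX.orth A hA a.1 haA (fun e => ha1 (Subtype.ext e)) (fun e => han (Subtype.ext e)) b.1 hab

lemma card_subgroupOf {G : Type} [Group G] [Finite G] (A W : Subgroup G) :
    Nat.card (A.subgroupOf W) ≤ Nat.card A := by
  apply Nat.card_le_card_of_injective (fun x : A.subgroupOf W => (⟨x.1.1, x.2⟩ : A))
  intro x y e
  have : (x.1.1 : G) = y.1.1 := congrArg (fun z : A => (z : G)) e
  exact Subtype.ext (Subtype.ext this)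

include h hX in
/-- parts with at most `N` elements -/
theorem elem_of_parts [Finite S.G] {N : ℕ}
    (hN : ∀ T : QData, IsQuat T → Finite T.G → Nat.card T.G ≤ N → Elem T)
    (hXN : ∀ K ∈ X, Nat.card K ≤ N) : Elem S := by
  by_cases hin : NegIn S X
  · exact elem_of_negin h hX hin hN hXN
  have hin' := hin
  unfold NegIn at hin'
  push Not at hin'
  obtain ⟨hn, hWX⟩ := hin'
  -- the group of the elements of `V(-1)` and their negatives
  set W : Subgroup S.G := D h S.neg ⊔ Subgroup.zpowers S.neg with hWdef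
  have hnW : S.neg ∈ W := (le_sup_right (a := D h S.neg)) (Subgroup.mem_zpowers _)
  have hbi : ∀ g : S.G, g ∉ W → Bi S g := by
    intro g hg
    refine bi_outside h hX hin g (fun h1 => hg ((le_sup_left (a := D h S.neg)) h1))
      fun h1 => hg ?_
    exact (W.mul_mem_cancel_left hnW).1 ((le_sup_left (a := D h S.neg)) h1)
  have hmem : ∀ g ∈ W, S.q S.neg g = S.zero ∨ S.q S.neg (S.neg * g) = S.zero := by
    intro g hg
    obtain ⟨v, hv, z, hz, rfl⟩ := Subgroup.mem_sup.1 hg
    have hv' : S.q S.neg v = S.zero := hv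
    rcases mem_zp h hz with rfl | rfl
    · left
      rw [mul_one]
      exact hv'
    · right
      have e : S.neg * (v * S.neg) = v := by
        simp only [mul_comm, mul_left_comm, mul_assoc, ec h.exp2, h.exp2, mul_one, one_mul]
      rw [e]
      exact hv'
  obtain ⟨k, -, hk2⟩ := chain _ S h inferInstance le_rfl W hnW hbi
  refine Elem.iso _ _ (elem_iter ?_ k) hk2
  have hq' := (isQuat_restrN h W hnW hbi).1
  have hf' : Finite (restrN S W hnW).G := inferInstanceAs (Finite W)
  have hWA : ∀ A ∈ X, ¬ W ≤ A := by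
    intro A hA hc
    obtain ⟨w, hw, hwA⟩ := hWX A hA
    exact hwA (hc ((le_sup_left (a := D h S.neg)) hw))
  have hX' := restrN_part hX W hnW hWA
  have hin2 : ¬ NegIn (restrN S W hnW) {B | ∃ A ∈ X, B = A.subgroupOf W} := by
    rintro (h1 | ⟨_, ⟨A, hA, rfl⟩, h1⟩)
    · exact hn (congrArg Subtype.val h1)
    · obtain ⟨w, hw, hwA⟩ := hWX A hA
      exact hwA (h1 ⟨w, (le_sup_left (a := D h S.neg)) hw⟩ hw)
  obtain ⟨K, hnK, hK, hK0, hi⟩ := split_iso hq' hX' hin2 fun g => hmem g.1 g.2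
  have hE : Elem (restr (restrN S W hnW) K) := by
    have hf : Finite (restr (restrN S W hnW) K).G := inferInstanceAs (Finite K)
    refine elem_of_negin (restr_quat hq' hK hK0) (restr_part hnK hK hX') (Or.inl rfl) hN ?_
    rintro _ ⟨_, ⟨A, hA, rfl⟩, rfl⟩
    exact ((card_subgroupOf (G := (restrN S W hnW).G) _ _).trans
      (card_subgroupOf (G := S.G) _ _)).trans (hXN A hA)
  rcases hi with hi | hi
  · exact Elem.iso _ _ (Elem.prod _ _ hE Elem.l11) hi
  · exact Elem.iso _ _ (Elem.prod _ _ hE Elem.l1) hi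

end

end Pool.Agent.U499.EPT.Gen
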